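import Mathlib
import Pool.Agent.Q178.Box.Tri

/-!
# The space of mm-spaces with the box and the concentration topology, and its scaling quotient

mm-spaces (normalised to full support), isomorphism, parameters and the box distance are those of
`Pool.Agent.Q178.Box.Base`.
-/

set_option autoImplicit false

open Set Filter Topology MeasureTheory NNReal ENNReal

namespace Q233.SG

open Q178.Box

/-! ### The observable distance -/

/-- The Ky Fan distance of two functions on `I = [0,1)`: the infimum of the numbers `ε ≥ 0` with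
`leb {|f - g| > ε} ≤ ε`. -/
noncomputable def dKF (f g : Ico (0 : ℝ) 1 → ℝ) : ℝ≥0∞ :=
  ⨅ (ε : ℝ≥0) (_ : leb {t | (ε : ℝ) < |f t - g t|} ≤ ε), (ε : ℝ≥0∞)

/-- The Hausdorff distance for `dKF`. -/
noncomputable def dH (A B : Set (Ico (0 : ℝ) 1 → ℝ)) : ℝ≥0∞ :=
  max (⨆ f ∈ A, ⨅ g ∈ B, dKF f g) (⨆ g ∈ B, ⨅ f ∈ A, dKF f g)

/-- The set of the functions `f ∘ φ`, `f` a real 1-Lipschitz function on `X`. -/
def lip (X : MMSpace) (φ : Ico (0 : ℝ) 1 → X) : Set (Ico (0 : ℝ) 1 → ℝ) :=
  {u | ∃ f : X → ℝ, LipschitzWith 1 f ∧ u = f ∘ φ}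

/-- The observable distance of two mm-spaces. -/
noncomputable def concSp (X Y : MMSpace) : ℝ≥0∞ :=
  ⨅ (φ : Ico (0 : ℝ) 1 → X) (_ : IsParam X φ) (ψ : Ico (0 : ℝ) 1 → Y) (_ : IsParam Y ψ),
    dH (lip X φ) (lip Y ψ)

/-! ### Scaling and the one-point space -/

/-- The group of the positive real numbers. -/
abbrev Pos : Type := {t : ℝ // 0 < t}

/-- The metric `t d`, with the same uniform structure as `d`. -/
@[reducible] noncomputable def scaleMetric {α : Type} (t : Pos) (m : MetricSpace α) : MetricSpace α where
  dist x y := t.1 * dist x y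
  dist_self x := by simp
  dist_comm x y := by rw [dist_comm]
  dist_triangle x y z := by
    rw [← mul_add]
    exact mul_le_mul_of_nonneg_left (dist_triangle x y z) t.2.le
  eq_of_dist_eq_zero := by
    intro x y h
    have h1 : t.1 * dist x y = 0 := h
    rcases mul_eq_zero.1 h1 with h2 | h2
    · exact absurd h2 t.2.ne'
    · exact dist_eq_zero.1 h2
  toUniformSpace := m.toUniformSpace
  uniformity_dist := by
    have h0 := m.uniformity_dist
    rw [h0]
    apply le_antisymm
    · refine le_iInf₂ fun ε hε => ?_
      refine iInf₂_le_of_le (ε / t.1) (div_pos hε t.2) ?_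
      rw [principal_mono]
      intro p hp
      have hp' : dist p.1 p.2 < ε / t.1 := hp
      show t.1 * dist p.1 p.2 < ε
      rw [lt_div_iff₀ t.2] at hp'
      linarith
    · refine le_iInf₂ fun ε hε => ?_
      refine iInf₂_le_of_le (t.1 * ε) (mul_pos t.2 hε) ?_
      rw [principal_mono]
      intro p hp
      have hp' : t.1 * dist p.1 p.2 < t.1 * ε := hp
      exact lt_of_mul_lt_mul_left hp' t.2.le
  toBornology := m.toBornology
  cobounded_sets := by
    rw [m.cobounded_sets]
    ext s
    constructor
    · rintro ⟨C, hC⟩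
      refine ⟨t.1 * C, fun x hx y hy => mul_le_mul_of_nonneg_left (hC x hx y hy) t.2.le⟩
    · rintro ⟨C, hC⟩
      refine ⟨C / t.1, fun x hx y hy => ?_⟩
      rw [le_div_iff₀ t.2, mul_comm]
      exact hC x hx y hy

/-- The mm-space `t X`. -/
noncomputable def scale (t : Pos) (X : MMSpace) : MMSpace where
  carrier := X.carrier
  metric := scaleMetric t X.metric
  complete := X.complete
  separable := X.separable
  meas := X.meas
  borel := X.borel
  μ := X.μ
  prob := X.prob
  full := X.full

/-- The one-point mm-space. -/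
noncomputable def pt : MMSpace where
  carrier := Unit
  μ := Measure.dirac ()
  full := by
    rw [eq_univ_iff_forall]
    intro x
    rw [Measure.mem_support_iff_forall]
    intro U hU
    have h1 : U = univ := by
      rw [eq_univ_iff_forall]
      intro y
      exact mem_of_mem_nhds hU
    rw [h1, measure_univ]
    exact one_pos

end Q233.SG
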