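import Pool.Agent.Q233.SG.Prod

/-!
# A homogeneous functional which is continuous for the observable distance
-/

set_option autoImplicit false

open Set Filter Topology MeasureTheory NNReal ENNReal

namespace Q233.SG

open Q178.Box

/-- truncated oscillation of a function -/
noncomputable def osc (X : MMSpace) (f : X → ℝ) (r : ℝ) : ℝ≥0∞ :=
  ∫⁻ p, ENNReal.ofReal (min |f p.1 - f p.2| r) ∂(X.μ.prod X.μ)

/-- truncated observable oscillation -/
noncomputable def PhiE (X : MMSpace) (r : ℝ) : ℝ≥0∞ :=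
  ⨆ (f : X → ℝ) (_ : LipschitzWith 1 f), osc X f r

noncomputable def Phi (X : MMSpace) (r : ℝ) : ℝ := (PhiE X r).toReal

theorem osc_le (X : MMSpace) (f : X → ℝ) (r : ℝ) : osc X f r ≤ ENNReal.ofReal r := by
  refine (lintegral_mono fun p => ENNReal.ofReal_le_ofReal (min_le_right _ _)).trans ?_
  rw [lintegral_const, measure_univ, mul_one]

theorem PhiE_le (X : MMSpace) (r : ℝ) : PhiE X r ≤ ENNReal.ofReal r :=
  iSup₂_le fun f _ => osc_le X f r

theorem PhiE_ne_top (X : MMSpace) (r : ℝ) : PhiE X r ≠ ∞ :=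
  ne_top_of_le_ne_top ENNReal.ofReal_ne_top (PhiE_le X r)

theorem Phi_nonneg (X : MMSpace) (r : ℝ) : 0 ≤ Phi X r := ENNReal.toReal_nonneg

theorem Phi_le (X : MMSpace) {r : ℝ} (hr : 0 ≤ r) : Phi X r ≤ r := by
  have := ENNReal.toReal_mono ENNReal.ofReal_ne_top (PhiE_le X r)
  rwa [ENNReal.toReal_ofReal hr] at this

theorem osc_param {X : MMSpace} {φ : Ico (0 : ℝ) 1 → X} (hφ : IsParam X φ) {f : X → ℝ}
    (hf : Measurable f) (r : ℝ) :
    osc X f r = ∫⁻ p, ENNReal.ofReal (min |f (φ p.1) - f (φ p.2)| r) ∂(leb.prod leb) := by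
  have h1 : X.μ.prod X.μ = Measure.map (Prod.map φ φ) (leb.prod leb) := by
    rw [← Measure.map_prod_map _ _ hφ.1 hφ.1, hφ.2]
  have hm : Measurable fun p : X × X => ENNReal.ofReal (min |f p.1 - f p.2| r) := by
    apply Measurable.ennreal_ofReal
    exact ((hf.comp measurable_fst).sub (hf.comp measurable_snd)).abs.min measurable_const
  unfold osc
  rw [h1, lintegral_map hm (hφ.1.prodMap hφ.1)]
  rfl

theorem PhiE_compare {ε : ℝ≥0} {X Y : MMSpace} (h : CGood ε X Y) {r : ℝ} (hr : 0 ≤ r) :
    PhiE X r ≤ PhiE Y r + ENNReal.ofReal (2 * ε + 2 * ε * r) := by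
  obtain ⟨φ, ψ, hφ, hψ, h1, -⟩ := h
  refine iSup₂_le fun f hf => ?_
  obtain ⟨g, hg, hfg⟩ := h1 f hf
  have hfm : Measurable f := hf.continuous.measurable
  have hgm : Measurable g := hg.continuous.measurable
  have hle : osc Y g r ≤ PhiE Y r := le_iSup₂ (f := fun u (_ : LipschitzWith 1 u) => osc Y u r) g hg
  refine le_trans ?_ (add_le_add hle le_rfl)
  rw [osc_param hφ hfm, osc_param hψ hgm]
  let B : Set (Ico (0 : ℝ) 1) := {t | (ε : ℝ) < |f (φ t) - g (ψ t)|}
  have hB : MeasurableSet B := by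
    apply measurableSet_lt measurable_const
    exact ((hfm.comp hφ.1).sub (hgm.comp hψ.1)).abs
  have hgp : Measurable fun p : Ico (0 : ℝ) 1 × Ico (0 : ℝ) 1 =>
      ENNReal.ofReal (min |g (ψ p.1) - g (ψ p.2)| r) := by
    apply Measurable.ennreal_ofReal
    exact ((hgm.comp (hψ.1.comp measurable_fst)).sub
      (hgm.comp (hψ.1.comp measurable_snd))).abs.min measurable_const
  let J₁ : Ico (0 : ℝ) 1 × Ico (0 : ℝ) 1 → ℝ≥0∞ := (B ×ˢ univ).indicator 1
  let J₂ : Ico (0 : ℝ) 1 × Ico (0 : ℝ) 1 → ℝ≥0∞ := (univ ×ˢ B).indicator 1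
  have hJ₁ : Measurable J₁ := measurable_one.indicator (hB.prod MeasurableSet.univ)
  have hJ₂ : Measurable J₂ := measurable_one.indicator (MeasurableSet.univ.prod hB)
  have hpt : ∀ p : Ico (0 : ℝ) 1 × Ico (0 : ℝ) 1,
      ENNReal.ofReal (min |f (φ p.1) - f (φ p.2)| r) ≤
        ENNReal.ofReal (min |g (ψ p.1) - g (ψ p.2)| r) + (ENNReal.ofReal (2 * ε) +
          (ENNReal.ofReal r * J₁ p + ENNReal.ofReal r * J₂ p)) := by
    rintro ⟨s, t⟩
    have hε : (0 : ℝ) ≤ ε := ε.2
    by_cases hs : s ∈ B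
    · have e1 : J₁ (s, t) = 1 := indicator_of_mem (show (s, t) ∈ B ×ˢ univ from
        ⟨hs, mem_univ _⟩) _
      rw [e1, mul_one]
      refine (ENNReal.ofReal_le_ofReal (min_le_right _ _)).trans ?_
      exact le_trans (le_trans le_self_add le_add_self) le_add_self
    · by_cases ht : t ∈ B
      · have e1 : J₂ (s, t) = 1 := indicator_of_mem (show (s, t) ∈ univ ×ˢ B from
          ⟨mem_univ _, ht⟩) _
        rw [e1, mul_one]
        refine (ENNReal.ofReal_le_ofReal (min_le_right _ _)).trans ?_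
        exact le_trans (le_trans le_add_self le_add_self) le_add_self
      · have hs' : |f (φ s) - g (ψ s)| ≤ ε := not_lt.1 hs
        have ht' : |f (φ t) - g (ψ t)| ≤ ε := not_lt.1 ht
        have e1 : min |f (φ s) - f (φ t)| r ≤ min |g (ψ s) - g (ψ t)| r + 2 * ε := by
          have e2 : |f (φ s) - f (φ t)| ≤ |g (ψ s) - g (ψ t)| + 2 * ε := by
            have e3 : f (φ s) - f (φ t) = (f (φ s) - g (ψ s)) + (g (ψ s) - g (ψ t)) -
              (f (φ t) - g (ψ t)) := by ring
            rw [e3]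
            refine (abs_sub _ _).trans ?_
            have := abs_add_le (f (φ s) - g (ψ s)) (g (ψ s) - g (ψ t))
            linarith
          rcases le_total |g (ψ s) - g (ψ t)| r with h | h
          · rw [min_eq_left h]
            exact (min_le_left _ _).trans e2
          · rw [min_eq_right h]
            exact (min_le_right _ _).trans (by linarith)
        refine (ENNReal.ofReal_le_ofReal e1).trans ?_
        rw [ENNReal.ofReal_add (le_min (abs_nonneg _) hr) (by linarith)]
        gcongr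
        exact le_self_add
  refine (lintegral_mono hpt).trans ?_
  have i1 : ∫⁻ p, J₁ p ∂(leb.prod leb) ≤ ε := by
    have : ∫⁻ p, J₁ p ∂(leb.prod leb) = (leb.prod leb) (B ×ˢ univ) :=
      lintegral_indicator_one (hB.prod MeasurableSet.univ)
    rw [this, Measure.prod_prod, measure_univ, mul_one]
    exact hfg
  have i2 : ∫⁻ p, J₂ p ∂(leb.prod leb) ≤ ε := by
    have : ∫⁻ p, J₂ p ∂(leb.prod leb) = (leb.prod leb) (univ ×ˢ B) :=
      lintegral_indicator_one (MeasurableSet.univ.prod hB)
    rw [this, Measure.prod_prod, measure_univ, one_mul]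
    exact hfg
  rw [lintegral_add_left hgp, lintegral_add_left measurable_const,
    lintegral_add_left (hJ₁.const_mul _), lintegral_const_mul _ hJ₁, lintegral_const_mul _ hJ₂,
    lintegral_const, measure_univ, mul_one]
  gcongr
  have hε : (0 : ℝ) ≤ ε := ε.2
  rw [ENNReal.ofReal_add (by linarith) (by positivity)]
  gcongr
  refine (add_le_add (mul_le_mul_right i1 _) (mul_le_mul_right i2 _)).trans (le_of_eq ?_)
  rw [← two_mul, ← ENNReal.ofReal_coe_nnreal, ← ENNReal.ofReal_mul hr,
    ← ENNReal.ofReal_ofNat, ← ENNReal.ofReal_mul (by norm_num)]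
  congr 1
  ring

theorem Phi_compare {ε : ℝ≥0} {X Y : MMSpace} (h : CGood ε X Y) {r : ℝ} (hr : 0 ≤ r) :
    Phi X r ≤ Phi Y r + 2 * ε + 2 * ε * r := by
  have h1 := PhiE_compare h hr
  have hε : (0 : ℝ) ≤ ε := ε.2
  have h2 := ENNReal.toReal_mono (ENNReal.add_ne_top.2 ⟨PhiE_ne_top Y r, ENNReal.ofReal_ne_top⟩) h1
  rw [ENNReal.toReal_add (PhiE_ne_top Y r) ENNReal.ofReal_ne_top,
    ENNReal.toReal_ofReal (by positivity)] at h2
  unfold Phi
  linarith

theorem Phi_iso {X Y : MMSpace} (h : Iso X Y) {r : ℝ} (hr : 0 ≤ r) : Phi X r = Phi Y r := by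
  have h1 : CGood 0 X Y := (CGood.refl X).iso (Iso.refl X) h
  have h2 := Phi_compare h1 hr
  have h3 := Phi_compare h1.symm hr
  simp only [NNReal.coe_zero] at h2 h3
  linarith

/-- almost linear bound -/
theorem Phi_linear (X : MMSpace) {δ : ℝ} (hδ : 0 < δ) :
    ∃ M : ℝ, 0 ≤ M ∧ ∀ r : ℝ, 0 ≤ r → Phi X r ≤ M + δ * r := by
  -- the sets on which the distance is large
  let D : ℕ → Set (X × X) := fun n => {p | (n : ℝ) < dist p.1 p.2}
  have hDm : ∀ n, MeasurableSet (D n) := fun n =>
    measurableSet_lt measurable_const (by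
      have : SecondCountableTopology X := UniformSpace.secondCountable_of_separable _
      exact measurable_fst.dist measurable_snd)
  have hDa : Antitone D := by
    intro n m hnm p hp
    have h1 : (m : ℝ) < dist p.1 p.2 := hp
    have h2 : (n : ℝ) ≤ m := by exact_mod_cast hnm
    exact h2.trans_lt h1
  have hD0 : ⋂ n, D n = ∅ := by
    rw [eq_empty_iff_forall_notMem]
    intro p hp
    obtain ⟨n, hn⟩ := exists_nat_gt (dist p.1 p.2)
    have h1 : (n : ℝ) < dist p.1 p.2 := mem_iInter.1 hp n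
    linarith
  have hlim := tendsto_measure_iInter_atTop (μ := X.μ.prod X.μ)
    (fun n => (hDm n).nullMeasurableSet) hDa ⟨0, measure_ne_top _ _⟩
  rw [hD0, measure_empty] at hlim
  have hev : ∀ᶠ n in atTop, (X.μ.prod X.μ) (D n) < ENNReal.ofReal δ :=
    hlim.eventually_lt_const (by simpa using hδ)
  obtain ⟨n, hn⟩ := hev.exists
  refine ⟨n, Nat.cast_nonneg n, fun r hr => ?_⟩
  have hE : PhiE X r ≤ ENNReal.ofReal (n + δ * r) := by
    refine iSup₂_le fun f hf => ?_
    have hf' := lip_iff.1 hf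
    let J : X × X → ℝ≥0∞ := (D n).indicator 1
    have hJ : Measurable J := measurable_one.indicator (hDm n)
    have hpt : ∀ p : X × X, ENNReal.ofReal (min |f p.1 - f p.2| r) ≤
        ENNReal.ofReal n + ENNReal.ofReal r * J p := by
      intro p
      by_cases hp : p ∈ D n
      · have e1 : J p = 1 := indicator_of_mem hp _
        rw [e1, mul_one]
        exact (ENNReal.ofReal_le_ofReal (min_le_right _ _)).trans le_add_self
      · have hp' : dist p.1 p.2 ≤ n := not_lt.1 hp
        exact (ENNReal.ofReal_le_ofReal ((min_le_left _ _).trans ((hf' _ _).trans hp'))).trans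
          le_self_add
    have hi : ∫⁻ p, J p ∂(X.μ.prod X.μ) ≤ ENNReal.ofReal δ := by
      have : ∫⁻ p, J p ∂(X.μ.prod X.μ) = (X.μ.prod X.μ) (D n) := lintegral_indicator_one (hDm n)
      rw [this]
      exact hn.le
    refine (lintegral_mono hpt).trans ?_
    rw [lintegral_add_left measurable_const, lintegral_const_mul _ hJ, lintegral_const,
      measure_univ, mul_one, ENNReal.ofReal_add (Nat.cast_nonneg n) (by positivity)]
    gcongr
    refine (mul_le_mul_right hi _).trans (le_of_eq ?_)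
    rw [← ENNReal.ofReal_mul hr, mul_comm]
  have h2 := ENNReal.toReal_mono ENNReal.ofReal_ne_top hE
  rwa [ENNReal.toReal_ofReal (by positivity)] at h2

/-- positivity -/
theorem Phi_pos (X : MMSpace) {x y : X} (hxy : x ≠ y) : 0 < Phi X 1 := by
  have hc : 0 < dist x y := dist_pos.2 hxy
  set c := dist x y with hcdef
  have hU : 0 < X.μ (Metric.ball x (c / 4)) := by
    have hx : x ∈ X.μ.support := by rw [X.full]; exact mem_univ _
    exact (Measure.mem_support_iff_forall _).1 hx _ (Metric.ball_mem_nhds x (by linarith))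
  have hV : 0 < X.μ (Metric.ball y (c / 4)) := by
    have hy : y ∈ X.μ.support := by rw [X.full]; exact mem_univ _
    exact (Measure.mem_support_iff_forall _).1 hy _ (Metric.ball_mem_nhds y (by linarith))
  have hf : LipschitzWith 1 fun z : X => dist x z := LipschitzWith.dist_right x
  let S : Set (X × X) := Metric.ball x (c / 4) ×ˢ Metric.ball y (c / 4)
  have hS : MeasurableSet S := measurableSet_ball.prod measurableSet_ball
  have h1 : 0 < osc X (fun z => dist x z) 1 := by
    have h2 : ENNReal.ofReal (min (c / 2) 1) * (X.μ.prod X.μ) S ≤ osc X (fun z => dist x z) 1 := by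
      rw [← setLIntegral_const]
      refine le_trans (setLIntegral_mono' hS ?_) (setLIntegral_le_lintegral S _)
      rintro ⟨p, q⟩ ⟨hp, hq⟩
      have hp' : dist p x < c / 4 := hp
      have hq' : dist q y < c / 4 := hq
      apply ENNReal.ofReal_le_ofReal
      apply min_le_min _ le_rfl
      simp only
      have e1 := dist_triangle x q y
      have e2 : dist x p < c / 4 := by rw [dist_comm]; exact hp'
      rw [abs_sub_comm]
      refine le_trans ?_ (le_abs_self _)
      linarith
    refine lt_of_lt_of_le ?_ h2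
    rw [Measure.prod_prod]
    refine ENNReal.mul_pos ?_ (mul_ne_zero hU.ne' hV.ne')
    have : 0 < min (c / 2) 1 := lt_min (by linarith) one_pos
    simpa using this
  have h3 : 0 < PhiE X 1 := lt_of_lt_of_le h1
    (le_iSup₂ (f := fun u (_ : LipschitzWith 1 u) => osc X u 1) _ hf)
  exact ENNReal.toReal_pos h3.ne' (PhiE_ne_top X 1)

theorem Phi_scale_le (t : Pos) (X : MMSpace) {r : ℝ} (hr : 0 ≤ r) :
    Phi (scale t X) (t.1 * r) ≤ t.1 * Phi X r := by
  have h1 : PhiE (scale t X) (t.1 * r) ≤ ENNReal.ofReal t.1 * PhiE X r := by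
    refine iSup₂_le fun f hf => ?_
    have hf' := (lip_iff (X := scale t X)).1 hf
    let g : X → ℝ := fun x => t.1⁻¹ * f x
    have hg : LipschitzWith 1 g := by
      rw [lip_iff]
      intro a b
      have e1 := hf' a b
      rw [dist_scale t X a b] at e1
      simp only [g]
      rw [← mul_sub, abs_mul, abs_of_pos (inv_pos.2 t.2), inv_mul_le_iff₀ t.2]
      exact e1
    have hgm : Measurable g := hg.continuous.measurable
    have e2 : osc (scale t X) f (t.1 * r) = ENNReal.ofReal t.1 * osc X g r := by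
      unfold osc
      rw [← lintegral_const_mul]
      · refine lintegral_congr fun p => ?_
        have e3 : |f p.1 - f p.2| = t.1 * |g p.1 - g p.2| := by
          simp only [g]
          rw [← mul_sub, abs_mul, abs_of_pos (inv_pos.2 t.2), ← mul_assoc, mul_inv_cancel₀ t.2.ne',
            one_mul]
        rw [← ENNReal.ofReal_mul t.2.le, mul_min_of_nonneg _ _ t.2.le, e3]
      · apply Measurable.ennreal_ofReal
        exact ((hgm.comp measurable_fst).sub (hgm.comp measurable_snd)).abs.min measurable_const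
    rw [e2]
    gcongr
    exact le_iSup₂ (f := fun u (_ : LipschitzWith 1 u) => osc X u r) g hg
  have h2 := ENNReal.toReal_mono (ENNReal.mul_ne_top ENNReal.ofReal_ne_top (PhiE_ne_top X r)) h1
  rwa [ENNReal.toReal_mul, ENNReal.toReal_ofReal t.2.le] at h2

theorem scale_inv_iso (t : Pos) (X : MMSpace) : Iso (scale t⁻¹ (scale t X)) X := by
  have h1 := (scale_mul_iso t⁻¹ t X).symm
  rw [inv_mul_cancel] at h1
  exact h1.trans (scale_one_iso X)

theorem Phi_scale (t : Pos) (X : MMSpace) {r : ℝ} (hr : 0 ≤ r) :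
    Phi (scale t X) (t.1 * r) = t.1 * Phi X r := by
  apply le_antisymm (Phi_scale_le t X hr)
  have h1 := Phi_scale_le t⁻¹ (scale t X) (mul_nonneg t.2.le hr)
  have h2 : (t⁻¹ : Pos).1 = t.1⁻¹ := rfl
  rw [h2, ← mul_assoc, inv_mul_cancel₀ t.2.ne', one_mul, Phi_iso (scale_inv_iso t X) hr,
    le_inv_mul_iff₀ t.2] at h1
  exact h1

end Q233.SG
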