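import Pool.Agent.Q233.SG.Defs

/-!
# Gluing of parameters, the observable distance is a pseudometric, isomorphisms from
representations
-/

set_option autoImplicit false

open Set Filter Topology MeasureTheory NNReal ENNReal ProbabilityTheory

namespace Q233.SG

open Q178.Box

/-- isomorphism from two representations on the same probability space -/
theorem iso_of_rep {Ω : Type} [MeasurableSpace Ω] (m : Measure Ω) {A B : MMSpace} {F : Ω → A}
    {F' : Ω → B} (hF : Measurable F) (hs : Function.Surjective F)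
    (hs' : Function.Surjective F') (hm : Measure.map F m = A.μ) (hm' : Measure.map F' m = B.μ)
    (hd : ∀ p q, dist (F p) (F q) = dist (F' p) (F' q)) : Iso A B := by
  have h1 : ∀ p q, F p = F q → F' p = F' q := fun p q h => by
    rw [← dist_eq_zero, ← hd, dist_eq_zero]
    exact h
  let g : A → B := fun a => F' (Function.surjInv hs a)
  have hg : ∀ p, g (F p) = F' p := fun p => h1 _ _ (Function.surjInv_eq hs (F p))
  have hiso : Isometry g := Isometry.of_dist_eq fun a b => by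
    obtain ⟨p, rfl⟩ := hs a
    obtain ⟨q, rfl⟩ := hs b
    rw [hg, hg, hd]
  have hsg : Function.Surjective g := fun b => by
    obtain ⟨p, rfl⟩ := hs' b
    exact ⟨F p, hg p⟩
  refine ⟨⟨Equiv.ofBijective g ⟨hiso.injective, hsg⟩, hiso⟩, ?_⟩
  have h2 : Measure.map g A.μ = B.μ := by
    rw [← hm, Measure.map_map hiso.continuous.measurable hF, ← hm']
    congr 1
    funext p
    exact hg p
  exact h2

/-- gluing of two parameters of the same space -/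
theorem glue {Y : MMSpace} {ψ₁ φ₂ : Ico (0 : ℝ) 1 → Y} (h₁ : IsParam Y ψ₁)
    (h₂ : IsParam Y φ₂) : ∃ σ τ : Ico (0 : ℝ) 1 → Ico (0 : ℝ) 1, Measurable σ ∧ Measurable τ ∧
      Measure.map σ leb = leb ∧ Measure.map τ leb = leb ∧ ∀ᵐ s ∂leb, ψ₁ (σ s) = φ₂ (τ s) := by
  obtain ⟨hψ₁, hψ₁m⟩ := h₁
  obtain ⟨hφ₂, hφ₂m⟩ := h₂
  let I := Ico (0 : ℝ) 1
  have hsY : StandardBorelSpace Y.carrier := inferInstance
  have hm₁ : Measurable fun s : I => (ψ₁ s, s) := hψ₁.prodMk measurable_id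
  have hm₂ : Measurable fun s : I => (φ₂ s, s) := hφ₂.prodMk measurable_id
  let ρ₁ : Measure (Y × I) := Measure.map (fun s => (ψ₁ s, s)) leb
  let ρ₂ : Measure (Y × I) := Measure.map (fun s => (φ₂ s, s)) leb
  have hρ₁p : IsProbabilityMeasure ρ₁ := Measure.isProbabilityMeasure_map hm₁.aemeasurable
  have hρ₂p : IsProbabilityMeasure ρ₂ := Measure.isProbabilityMeasure_map hm₂.aemeasurable
  have hf₁ : ρ₁.fst = Y.μ := by
    rw [Measure.fst, Measure.map_map measurable_fst hm₁]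
    exact hψ₁m
  have hf₂ : ρ₂.fst = Y.μ := by
    rw [Measure.fst, Measure.map_map measurable_fst hm₂]
    exact hφ₂m
  let κ₁ := ρ₁.condKernel
  let κ₂ := ρ₂.condKernel
  have hc₁ : Y.μ ⊗ₘ κ₁ = ρ₁ := by rw [← hf₁]; exact ρ₁.disintegrate ρ₁.condKernel
  have hc₂ : Y.μ ⊗ₘ κ₂ = ρ₂ := by rw [← hf₂]; exact ρ₂.disintegrate ρ₂.condKernel
  let m : Measure (Y × (I × I)) := Y.μ ⊗ₘ (κ₁ ×ₖ κ₂)
  have hm1 : Measure.map (fun p : Y × (I × I) => (p.1, p.2.1)) m = ρ₁ := by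
    have h := Measure.compProd_map (μ := Y.μ) (κ := κ₁ ×ₖ κ₂) (f := Prod.fst) measurable_fst
    rw [← Kernel.fst_eq, Kernel.fst_prod, hc₁] at h
    rw [h]
    rfl
  have hm2 : Measure.map (fun p : Y × (I × I) => (p.1, p.2.2)) m = ρ₂ := by
    have h := Measure.compProd_map (μ := Y.μ) (κ := κ₁ ×ₖ κ₂) (f := Prod.snd) measurable_snd
    rw [← Kernel.snd_eq, Kernel.snd_prod, hc₂] at h
    rw [h]
    rfl
  have hq1 : Measurable (fun p : Y × (I × I) => (p.1, p.2.1)) := by fun_prop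
  have hq2 : Measurable (fun p : Y × (I × I) => (p.1, p.2.2)) := by fun_prop
  have hmp : IsProbabilityMeasure m := by
    constructor
    have : Measure.map (fun p : Y × (I × I) => (p.1, p.2.1)) m univ = 1 := by
      rw [hm1]
      exact measure_univ
    rwa [Measure.map_apply hq1 MeasurableSet.univ, preimage_univ] at this
  let T₁ : Set (Y × I) := {q | ψ₁ q.2 = q.1}
  let T₂ : Set (Y × I) := {q | φ₂ q.2 = q.1}
  have hT₁ : MeasurableSet T₁ := measurableSet_eq_fun (hψ₁.comp measurable_snd) measurable_fst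
  have hT₂ : MeasurableSet T₂ := measurableSet_eq_fun (hφ₂.comp measurable_snd) measurable_fst
  have hT₁' : ρ₁ T₁ᶜ = 0 := by
    rw [Measure.map_apply hm₁ hT₁.compl]
    have : (fun s : I => (ψ₁ s, s)) ⁻¹' T₁ᶜ = ∅ := by
      ext s
      simp [T₁]
    rw [this, measure_empty]
  have hT₂' : ρ₂ T₂ᶜ = 0 := by
    rw [Measure.map_apply hm₂ hT₂.compl]
    have : (fun s : I => (φ₂ s, s)) ⁻¹' T₂ᶜ = ∅ := by
      ext s
      simp [T₂]
    rw [this, measure_empty]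
  obtain ⟨θ, hθ, hθm⟩ := exists_param m
  refine ⟨fun s => (θ s).2.1, fun s => (θ s).2.2, by fun_prop, by fun_prop, ?_, ?_, ?_⟩
  · have h1 : (fun s => (θ s).2.1) = Prod.snd ∘ (fun p : Y × (I × I) => (p.1, p.2.1)) ∘ θ := rfl
    rw [h1, ← Measure.map_map measurable_snd (hq1.comp hθ), ← Measure.map_map hq1 hθ, hθm, hm1,
      Measure.map_map measurable_snd hm₁, show (Prod.snd ∘ fun s : I => (ψ₁ s, s)) = id from rfl,
      Measure.map_id]
  · have h1 : (fun s => (θ s).2.2) = Prod.snd ∘ (fun p : Y × (I × I) => (p.1, p.2.2)) ∘ θ := rfl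
    rw [h1, ← Measure.map_map measurable_snd (hq2.comp hθ), ← Measure.map_map hq2 hθ, hθm, hm2,
      Measure.map_map measurable_snd hm₂, show (Prod.snd ∘ fun s : I => (φ₂ s, s)) = id from rfl,
      Measure.map_id]
  · have a1 : ∀ᵐ p ∂m, ψ₁ p.2.1 = p.1 := by
      rw [ae_iff]
      have h2 : m ((fun p : Y × (I × I) => (p.1, p.2.1)) ⁻¹' T₁ᶜ) = 0 := by
        rw [← Measure.map_apply hq1 hT₁.compl, hm1, hT₁']
      exact h2
    have a2 : ∀ᵐ p ∂m, φ₂ p.2.2 = p.1 := by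
      rw [ae_iff]
      have h2 : m ((fun p : Y × (I × I) => (p.1, p.2.2)) ⁻¹' T₂ᶜ) = 0 := by
        rw [← Measure.map_apply hq2 hT₂.compl, hm2, hT₂']
      exact h2
    have a3 : ∀ᵐ p ∂(Measure.map θ leb), ψ₁ p.2.1 = φ₂ p.2.2 := by
      rw [hθm]
      filter_upwards [a1, a2] with p h1 h2
      rw [h1, h2]
    exact ae_of_ae_map hθ.aemeasurable a3

/-! ### The observable distance -/

/-- The number `ε` is admissible in the definition of the observable distance. -/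
def CGood (ε : ℝ≥0) (X Y : MMSpace) : Prop :=
  ∃ (φ : Ico (0 : ℝ) 1 → X) (ψ : Ico (0 : ℝ) 1 → Y), IsParam X φ ∧ IsParam Y ψ ∧
    (∀ f : X → ℝ, LipschitzWith 1 f → ∃ g : Y → ℝ, LipschitzWith 1 g ∧
      leb {t | (ε : ℝ) < |f (φ t) - g (ψ t)|} ≤ ε) ∧
    (∀ g : Y → ℝ, LipschitzWith 1 g → ∃ f : X → ℝ, LipschitzWith 1 f ∧
      leb {t | (ε : ℝ) < |f (φ t) - g (ψ t)|} ≤ ε)

theorem concSp_le {X Y : MMSpace} {ε : ℝ≥0} (h : CGood ε X Y) : concSp X Y ≤ ε := by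
  obtain ⟨φ, ψ, hφ, hψ, h1, h2⟩ := h
  refine iInf₂_le_of_le φ hφ (iInf₂_le_of_le ψ hψ (max_le ?_ ?_))
  · refine iSup₂_le ?_
    rintro _ ⟨f, hf, rfl⟩
    obtain ⟨g, hg, hfg⟩ := h1 f hf
    exact iInf₂_le_of_le (g ∘ ψ) ⟨g, hg, rfl⟩ (iInf₂_le_of_le ε hfg le_rfl)
  · refine iSup₂_le ?_
    rintro _ ⟨g, hg, rfl⟩
    obtain ⟨f, hf, hfg⟩ := h2 g hg
    exact iInf₂_le_of_le (f ∘ φ) ⟨f, hf, rfl⟩ (iInf₂_le_of_le ε hfg le_rfl)

theorem dKF_lt {u v : Ico (0 : ℝ) 1 → ℝ} {r : ℝ≥0} (h : dKF u v < r) :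
    leb {t | (r : ℝ) < |u t - v t|} ≤ r := by
  unfold dKF at h
  simp only [iInf_lt_iff] at h
  obtain ⟨ε, h1, h2⟩ := h
  have h3 : ε < r := by exact_mod_cast h2
  refine (measure_mono ?_).trans (h1.trans (by exact_mod_cast h3.le))
  intro t ht
  have h4 : (ε : ℝ) < r := by exact_mod_cast h3
  exact h4.trans ht

theorem concSp_lt_iff {X Y : MMSpace} {r : ℝ≥0∞} :
    concSp X Y < r ↔ ∃ ε : ℝ≥0, (ε : ℝ≥0∞) < r ∧ CGood ε X Y := by
  constructor
  · intro h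
    unfold concSp at h
    simp only [iInf_lt_iff] at h
    obtain ⟨φ, hφ, ψ, hψ, h1⟩ := h
    obtain ⟨ε, h2, h3⟩ := ENNReal.lt_iff_exists_nnreal_btwn.1 h1
    refine ⟨ε, h3, φ, ψ, hφ, hψ, fun f hf => ?_, fun g hg => ?_⟩
    · have h4 : (⨅ g ∈ lip Y ψ, dKF (f ∘ φ) g) < ε :=
        lt_of_le_of_lt ((le_iSup₂ (f := fun u (_ : u ∈ lip X φ) => ⨅ g ∈ lip Y ψ, dKF u g)
          (f ∘ φ) ⟨f, hf, rfl⟩).trans (le_max_left _ _)) h2
      simp only [iInf_lt_iff] at h4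
      obtain ⟨_, ⟨g, hg, rfl⟩, h5⟩ := h4
      exact ⟨g, hg, dKF_lt h5⟩
    · have h4 : (⨅ f ∈ lip X φ, dKF f (g ∘ ψ)) < ε :=
        lt_of_le_of_lt ((le_iSup₂ (f := fun u (_ : u ∈ lip Y ψ) => ⨅ f ∈ lip X φ, dKF f u)
          (g ∘ ψ) ⟨g, hg, rfl⟩).trans (le_max_right _ _)) h2
      simp only [iInf_lt_iff] at h4
      obtain ⟨_, ⟨f, hf, rfl⟩, h5⟩ := h4
      exact ⟨f, hf, dKF_lt h5⟩
  · rintro ⟨ε, h, h'⟩
    exact (concSp_le h').trans_lt h

theorem cGood_of {Ω : Type} [MeasurableSpace Ω] [StandardBorelSpace Ω] (m : Measure Ω)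
    [IsProbabilityMeasure m] {X Y : MMSpace} {F : Ω → X} {F' : Ω → Y} (hF : Measurable F)
    (hF' : Measurable F') (hm : Measure.map F m = X.μ) (hm' : Measure.map F' m = Y.μ) {ε : ℝ≥0}
    (h1 : ∀ f : X → ℝ, LipschitzWith 1 f → ∃ g : Y → ℝ, LipschitzWith 1 g ∧
      m {t | (ε : ℝ) < |f (F t) - g (F' t)|} ≤ ε)
    (h2 : ∀ g : Y → ℝ, LipschitzWith 1 g → ∃ f : X → ℝ, LipschitzWith 1 f ∧
      m {t | (ε : ℝ) < |f (F t) - g (F' t)|} ≤ ε) : CGood ε X Y := by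
  obtain ⟨θ, hθ, hθm⟩ := exists_param m
  have key : ∀ (f : X → ℝ) (g : Y → ℝ), LipschitzWith 1 f → LipschitzWith 1 g →
      leb {t | (ε : ℝ) < |f ((F ∘ θ) t) - g ((F' ∘ θ) t)|} =
        m {t | (ε : ℝ) < |f (F t) - g (F' t)|} := by
    intro f g hf hg
    have hms : MeasurableSet {t | (ε : ℝ) < |f (F t) - g (F' t)|} := by
      apply measurableSet_lt measurable_const
      have e1 : Measurable fun t => f (F t) := hf.continuous.measurable.comp hF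
      have e2 : Measurable fun t => g (F' t) := hg.continuous.measurable.comp hF'
      exact (e1.sub e2).abs
    have h3 : m {t | (ε : ℝ) < |f (F t) - g (F' t)|} =
        (Measure.map θ leb) {t | (ε : ℝ) < |f (F t) - g (F' t)|} := by rw [hθm]
    rw [h3, Measure.map_apply hθ hms]
    rfl
  refine ⟨F ∘ θ, F' ∘ θ, ⟨hF.comp hθ, ?_⟩, ⟨hF'.comp hθ, ?_⟩, ?_, ?_⟩
  · rw [← Measure.map_map hF hθ, hθm, hm]
  · rw [← Measure.map_map hF' hθ, hθm, hm']
  · intro f hf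
    obtain ⟨g, hg, hfg⟩ := h1 f hf
    exact ⟨g, hg, (key f g hf hg).trans_le hfg⟩
  · intro g hg
    obtain ⟨f, hf, hfg⟩ := h2 g hg
    exact ⟨f, hf, (key f g hf hg).trans_le hfg⟩

theorem CGood.symm {ε : ℝ≥0} {X Y : MMSpace} (h : CGood ε X Y) : CGood ε Y X := by
  obtain ⟨φ, ψ, hφ, hψ, h1, h2⟩ := h
  refine ⟨ψ, φ, hψ, hφ, fun f hf => ?_, fun g hg => ?_⟩
  · obtain ⟨g, hg, h3⟩ := h2 f hf
    refine ⟨g, hg, ?_⟩
    simpa only [abs_sub_comm] using h3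
  · obtain ⟨f, hf, h3⟩ := h1 g hg
    refine ⟨f, hf, ?_⟩
    simpa only [abs_sub_comm] using h3

theorem lip_comp_iso {X X' : MMSpace} (e : X ≃ᵢ X') {f : X → ℝ} (hf : LipschitzWith 1 f) :
    LipschitzWith 1 (f ∘ e.symm) := by
  have := hf.comp e.symm.isometry.lipschitz
  simpa using this

theorem CGood.iso {ε : ℝ≥0} {X Y X' Y' : MMSpace} (h : CGood ε X Y) (hX : Iso X X')
    (hY : Iso Y Y') : CGood ε X' Y' := by
  obtain ⟨e, he⟩ := hX
  obtain ⟨e', he'⟩ := hY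
  obtain ⟨φ, ψ, hφ, hψ, h1, h2⟩ := h
  refine ⟨e ∘ φ, e' ∘ ψ, hφ.iso he, hψ.iso he', fun f hf => ?_, fun g hg => ?_⟩
  · obtain ⟨g, hg, h3⟩ := h1 (f ∘ e) (by simpa using hf.comp e.isometry.lipschitz)
    refine ⟨g ∘ e'.symm, lip_comp_iso e' hg, ?_⟩
    simpa using h3
  · obtain ⟨f, hf, h3⟩ := h2 (g ∘ e') (by simpa using hg.comp e'.isometry.lipschitz)
    refine ⟨f ∘ e.symm, lip_comp_iso e hf, ?_⟩
    simpa using h3

theorem CGood.refl (X : MMSpace) : CGood 0 X X := by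
  have hs : StandardBorelSpace X.carrier := inferInstance
  exact cGood_of X.μ (F := id) (F' := id) measurable_id measurable_id Measure.map_id
    Measure.map_id (fun f hf => ⟨f, hf, by simp⟩) (fun f hf => ⟨f, hf, by simp⟩)

theorem CGood.mono {ε ε' : ℝ≥0} {X Y : MMSpace} (h : CGood ε X Y) (hε : ε ≤ ε') :
    CGood ε' X Y := by
  obtain ⟨φ, ψ, hφ, hψ, h1, h2⟩ := h
  have key : ∀ (u : Ico (0 : ℝ) 1 → ℝ), leb {t | (ε : ℝ) < u t} ≤ ε →
      leb {t | (ε' : ℝ) < u t} ≤ ε' := by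
    intro u hu
    refine (measure_mono ?_).trans (hu.trans (by exact_mod_cast hε))
    intro t ht
    have h4 : (ε : ℝ) ≤ ε' := by exact_mod_cast hε
    exact h4.trans_lt ht
  refine ⟨φ, ψ, hφ, hψ, fun f hf => ?_, fun g hg => ?_⟩
  · obtain ⟨g, hg, h3⟩ := h1 f hf
    exact ⟨g, hg, key _ h3⟩
  · obtain ⟨f, hf, h3⟩ := h2 g hg
    exact ⟨f, hf, key _ h3⟩

theorem CGood.trans {ε₁ ε₂ : ℝ≥0} {X Y Z : MMSpace} (h₁ : CGood ε₁ X Y)
    (h₂ : CGood ε₂ Y Z) : CGood (ε₁ + ε₂) X Z := by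
  obtain ⟨φ₁, ψ₁, hφ₁, hψ₁, h1, h1'⟩ := h₁
  obtain ⟨φ₂, ψ₂, hφ₂, hψ₂, h2, h2'⟩ := h₂
  obtain ⟨σ, τ, hσ, hτ, hσm, hτm, hae⟩ := glue hψ₁ hφ₂
  have key : ∀ (f : X → ℝ) (g : Y → ℝ) (k : Z → ℝ), LipschitzWith 1 f → LipschitzWith 1 g →
      LipschitzWith 1 k → leb {t | (ε₁ : ℝ) < |f (φ₁ t) - g (ψ₁ t)|} ≤ ε₁ →
      leb {t | (ε₂ : ℝ) < |g (φ₂ t) - k (ψ₂ t)|} ≤ ε₂ →
      leb {t | ((ε₁ + ε₂ : ℝ≥0) : ℝ) < |f ((φ₁ ∘ σ) t) - k ((ψ₂ ∘ τ) t)|} ≤
        ((ε₁ + ε₂ : ℝ≥0) : ℝ≥0∞) := by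
    intro f g k hf hg hk a1 a2
    have hms1 : MeasurableSet {t | (ε₁ : ℝ) < |f (φ₁ t) - g (ψ₁ t)|} := by
      apply measurableSet_lt measurable_const
      exact ((hf.continuous.measurable.comp hφ₁.1).sub
        (hg.continuous.measurable.comp hψ₁.1)).abs
    have hms2 : MeasurableSet {t | (ε₂ : ℝ) < |g (φ₂ t) - k (ψ₂ t)|} := by
      apply measurableSet_lt measurable_const
      exact ((hg.continuous.measurable.comp hφ₂.1).sub
        (hk.continuous.measurable.comp hψ₂.1)).abs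
    have b1 : leb (σ ⁻¹' {t | (ε₁ : ℝ) < |f (φ₁ t) - g (ψ₁ t)|}) ≤ ε₁ := by
      rw [← Measure.map_apply hσ hms1, hσm]
      exact a1
    have b2 : leb (τ ⁻¹' {t | (ε₂ : ℝ) < |g (φ₂ t) - k (ψ₂ t)|}) ≤ ε₂ := by
      rw [← Measure.map_apply hτ hms2, hτm]
      exact a2
    have b3 : leb {s | ¬ ψ₁ (σ s) = φ₂ (τ s)} = 0 := hae
    have b4 : {t | ((ε₁ + ε₂ : ℝ≥0) : ℝ) < |f ((φ₁ ∘ σ) t) - k ((ψ₂ ∘ τ) t)|} ⊆
        (σ ⁻¹' {t | (ε₁ : ℝ) < |f (φ₁ t) - g (ψ₁ t)|} ∪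
          τ ⁻¹' {t | (ε₂ : ℝ) < |g (φ₂ t) - k (ψ₂ t)|}) ∪ {s | ¬ ψ₁ (σ s) = φ₂ (τ s)} := by
      intro t ht
      by_contra hc
      simp only [mem_union, mem_preimage, mem_setOf_eq, not_or, not_lt, not_not] at hc
      obtain ⟨⟨c1, c2⟩, c3⟩ := hc
      simp only [mem_setOf_eq, Function.comp_apply, NNReal.coe_add] at ht
      rw [c3] at c1
      have c4 := abs_sub_le (f (φ₁ (σ t))) (g (φ₂ (τ t))) (k (ψ₂ (τ t)))
      linarith
    refine (measure_mono b4).trans ((measure_union_le _ _).trans ?_)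
    rw [b3, add_zero, ENNReal.coe_add]
    exact (measure_union_le _ _).trans (add_le_add b1 b2)
  refine ⟨φ₁ ∘ σ, ψ₂ ∘ τ, ⟨hφ₁.1.comp hσ, ?_⟩, ⟨hψ₂.1.comp hτ, ?_⟩, fun f hf => ?_,
    fun k hk => ?_⟩
  · rw [← Measure.map_map hφ₁.1 hσ, hσm, hφ₁.2]
  · rw [← Measure.map_map hψ₂.1 hτ, hτm, hψ₂.2]
  · obtain ⟨g, hg, h3⟩ := h1 f hf
    obtain ⟨k, hk, h4⟩ := h2 g hg
    exact ⟨k, hk, key f g k hf hg hk h3 h4⟩
  · obtain ⟨g, hg, h4⟩ := h2' k hk
    obtain ⟨f, hf, h3⟩ := h1' g hg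
    exact ⟨f, hf, key f g k hf hg hk h3 h4⟩

theorem concSp_triangle (X Y Z : MMSpace) : concSp X Z ≤ concSp X Y + concSp Y Z := by
  refine ENNReal.le_of_forall_pos_le_add fun ε hε hfin => ?_
  have h1 : concSp X Y < concSp X Y + (ε / 2 : ℝ≥0) := by
    refine ENNReal.lt_add_right (ne_top_of_le_ne_top hfin.ne le_self_add) ?_
    simpa using hε.ne'
  have h2 : concSp Y Z < concSp Y Z + (ε / 2 : ℝ≥0) := by
    refine ENNReal.lt_add_right (ne_top_of_le_ne_top hfin.ne le_add_self) ?_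
    simpa using hε.ne'
  obtain ⟨ε₁, h3, h4⟩ := concSp_lt_iff.1 h1
  obtain ⟨ε₂, h5, h6⟩ := concSp_lt_iff.1 h2
  refine (concSp_le (h4.trans h6)).trans ?_
  rw [ENNReal.coe_add]
  refine (add_le_add h3.le h5.le).trans (le_of_eq ?_)
  have h7 : (ε : ℝ≥0∞) = (ε / 2 : ℝ≥0) + (ε / 2 : ℝ≥0) := by
    rw [← ENNReal.coe_add, add_halves]
  rw [h7]
  ring

theorem concSp_self (X : MMSpace) : concSp X X = 0 :=
  le_antisymm ((concSp_le (CGood.refl X)).trans (by simp)) zero_le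

theorem concSp_comm (X Y : MMSpace) : concSp X Y = concSp Y X := by
  apply le_antisymm
  · refine le_of_forall_gt fun r hr => ?_
    obtain ⟨ε, h1, h2⟩ := concSp_lt_iff.1 hr
    exact concSp_lt_iff.2 ⟨ε, h1, h2.symm⟩
  · refine le_of_forall_gt fun r hr => ?_
    obtain ⟨ε, h1, h2⟩ := concSp_lt_iff.1 hr
    exact concSp_lt_iff.2 ⟨ε, h1, h2.symm⟩

theorem concSp_iso {X Y X' Y' : MMSpace} (hX : Iso X X') (hY : Iso Y Y') :
    concSp X Y = concSp X' Y' := by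
  apply le_antisymm
  · refine le_of_forall_gt fun r hr => ?_
    obtain ⟨ε, h1, h2⟩ := concSp_lt_iff.1 hr
    exact concSp_lt_iff.2 ⟨ε, h1, h2.iso hX.symm hY.symm⟩
  · refine le_of_forall_gt fun r hr => ?_
    obtain ⟨ε, h1, h2⟩ := concSp_lt_iff.1 hr
    exact concSp_lt_iff.2 ⟨ε, h1, h2.iso hX hY⟩

/-- the observable distance is at most the box distance -/
theorem BoxGood.cGood {ε : ℝ≥0} {X Y : MMSpace} (h : BoxGood ε X Y) : CGood ε X Y := by
  obtain ⟨φ, ψ, hφ, hψ, I₀, hI, hI', hd⟩ := h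
  have hc : leb I₀ᶜ ≤ ε := by
    rw [prob_compl_eq_one_sub hI]
    exact tsub_le_iff_left.2 (by rw [← tsub_le_iff_right]; exact hI')
  -- extension of functions
  have key : ∀ {A B : MMSpace} (α : Ico (0 : ℝ) 1 → A) (β : Ico (0 : ℝ) 1 → B),
      (∀ s ∈ I₀, ∀ t ∈ I₀, |dist (α s) (α t) - dist (β s) (β t)| ≤ ε) →
      ∀ f : A → ℝ, LipschitzWith 1 f → ∃ g : B → ℝ, LipschitzWith 1 g ∧
        leb {t | (ε : ℝ) < |f (α t) - g (β t)|} ≤ ε := by
    intro A B α β hαβ f hf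
    rcases I₀.eq_empty_or_nonempty with h0 | ⟨s₀, hs₀⟩
    · refine ⟨fun _ => 0, LipschitzWith.const 0 |>.weaken (by simp), ?_⟩
      refine (measure_mono (subset_univ _)).trans ?_
      rw [h0, compl_empty] at hc
      exact hc
    · have hf' : ∀ a b, f a - f b ≤ dist a b := fun a b =>
        (le_abs_self _).trans (by simpa [Real.dist_eq] using hf.dist_le_mul a b)
      have hbd : ∀ b : B, BddBelow (range fun s : I₀ => f (α s) + dist (β s) b) := by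
        intro b
        refine ⟨f (α s₀) - dist (β s₀) b - ε, ?_⟩
        rintro _ ⟨s, rfl⟩
        have e1 := hf' (α s₀) (α s)
        have e2 := (abs_le.1 (hαβ s₀ hs₀ s s.2)).2
        have e3 := dist_triangle (β s₀) b (β s)
        rw [dist_comm b] at e3
        simp only
        linarith
      haveI : Nonempty I₀ := ⟨⟨s₀, hs₀⟩⟩
      let g : B → ℝ := fun b => ⨅ s : I₀, (f (α s) + dist (β s) b)
      have hg : LipschitzWith 1 g := by
        apply LipschitzWith.of_le_add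
        intro x y
        show g x ≤ g y + dist x y
        rw [← sub_le_iff_le_add]
        refine le_ciInf fun s => ?_
        have e1 : g x ≤ f (α s) + dist (β s) x := ciInf_le (hbd x) s
        have e2 := dist_triangle (β s) y x
        rw [dist_comm y x] at e2
        linarith
      refine ⟨g, hg, (measure_mono ?_).trans hc⟩
      intro t ht hI0
      have e1 : g (β t) ≤ f (α t) := by
        have := ciInf_le (hbd (β t)) (⟨t, hI0⟩ : I₀)
        simpa using this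
      have e2 : f (α t) - ε ≤ g (β t) := by
        refine le_ciInf fun s => ?_
        have e3 := hf' (α t) (α s)
        have e4 := (abs_le.1 (hαβ t hI0 s s.2)).2
        rw [dist_comm (β t)] at e4
        linarith
      have e5 : |f (α t) - g (β t)| ≤ ε := by
        rw [abs_le]
        constructor
        · have : (0 : ℝ) ≤ ε := ε.2
          linarith
        · linarith
      exact absurd ht (not_lt.2 e5)
  refine ⟨φ, ψ, hφ, hψ, key φ ψ hd, fun g hg => ?_⟩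
  obtain ⟨f, hf, h3⟩ := key ψ φ (fun s hs t ht => by rw [abs_sub_comm]; exact hd s hs t ht) g hg
  refine ⟨f, hf, ?_⟩
  simpa only [abs_sub_comm] using h3

end Q233.SG
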