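import Pool.Agent.Q233.SG.Top

/-!
# The homotopies
-/

set_option autoImplicit false

open Set Filter Topology MeasureTheory NNReal ENNReal unitInterval

namespace Q233.SG

open Q178.Box

theorem iso_pt_subsingleton {X : MMSpace} (h : Iso X pt) : Subsingleton X := by
  obtain ⟨e, -⟩ := h
  exact ⟨fun a b => e.injective rfl⟩

theorem subsingleton_iso_pt {X : MMSpace} (h : Subsingleton X) : Iso X pt := by
  obtain ⟨x₀⟩ : Nonempty X := X.μ.nonempty_of_neZero
  refine iso_of_rep (A := X) (B := pt) X.μ (F := id) (F' := fun _ => ()) measurable_id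
    Function.surjective_id (fun u => ⟨x₀, rfl⟩) Measure.map_id ?_ ?_
  · rw [Measure.map_const, measure_univ, one_smul]
    rfl
  · intro p q
    have h1 : @dist pt _ () () = 0 := dist_self _
    rw [h1, id, id, Subsingleton.elim p q, dist_self]

theorem cls_ne_point {k : Kind} {X : MMSpace} : cls k X ≠ point k ↔ ∃ x y : X, x ≠ y := by
  constructor
  · intro h
    by_contra hc
    push Not at hc
    exact h (Quotient.sound (subsingleton_iso_pt ⟨hc⟩))
  · rintro ⟨x, y, hxy⟩ h
    have h1 : Iso X pt := Quotient.exact h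
    have := iso_pt_subsingleton h1
    exact hxy (Subsingleton.elim x y)

theorem prodM_ne_point_of_ne {k : Kind} {x : MM k} (h : x ≠ point k) (b : ℝ) :
    prodM k x b ≠ point k := by
  induction x using Quotient.inductionOn with | _ X => ?_
  obtain ⟨x, y, hxy⟩ := cls_ne_point.1 h
  refine cls_ne_point.2 ⟨rep X b (x, true), rep X b (y, true), fun he => ?_⟩
  have h1 := dist_rep X b (x, true) (y, true)
  rw [he, dist_self] at h1
  simp only [if_true, add_zero] at h1
  exact hxy (dist_eq_zero.1 h1.symm)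

theorem prodM_ne_point_of_pos {k : Kind} (x : MM k) {b : ℝ} (hb : b ≠ 0) :
    prodM k x b ≠ point k := by
  induction x using Quotient.inductionOn with | _ X => ?_
  obtain ⟨x₀⟩ : Nonempty X := X.μ.nonempty_of_neZero
  refine cls_ne_point.2 ⟨rep X b (x₀, true), rep X b (x₀, false), fun he => ?_⟩
  have h1 := dist_rep X b (x₀, true) (x₀, false)
  rw [he, dist_self] at h1
  simp only [dist_self, zero_add, reduceCtorEq, if_false] at h1
  exact hb (abs_eq_zero.1 h1.symm)

/-- the projection to the quotient -/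
noncomputable def proj (k : Kind) (x : MMs k) : Sig k := Quotient.mk (MulAction.orbitRel Pos (MMs k)) x

theorem proj_open (k : Kind) : IsOpenQuotientMap (proj k) :=
  MulAction.isOpenQuotientMap_quotientMk

theorem proj_smul (k : Kind) (t : Pos) (x : MMs k) : proj k (t • x) = proj k x :=
  Quotient.sound ⟨t, rfl⟩

theorem proj_eq {k : Kind} {x y : MMs k} (h : proj k x = proj k y) : ∃ t : Pos, t • y = x :=
  Quotient.exact h

/-- the two-point space -/
noncomputable def y₀ (k : Kind) : MMs k := ⟨prodM k (point k) 1, prodM_ne_point_of_pos _ one_ne_zero⟩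

/-- the deformation on `𝒳_*` -/
noncomputable def def' (k : Kind) (x : MMs k) (τ : ℝ≥0) : MMs k :=
  ⟨prodM k x.1 (GM k x.1 τ), prodM_ne_point_of_ne x.2 _⟩

theorem continuous_def (k : Kind) : Continuous fun p : MMs k × ℝ≥0 => def' k p.1 p.2 := by
  refine Continuous.subtype_mk ?_ _
  have h1 : Continuous fun p : MMs k × ℝ≥0 => (p.1.1, p.2) := by
    exact (continuous_subtype_val.comp continuous_fst).prodMk continuous_snd
  have h2 : Continuous fun p : MMs k × ℝ≥0 => GM k p.1.1 p.2 := (continuous_GM k).comp h1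
  exact (continuous_prodM k).comp ((continuous_subtype_val.comp continuous_fst).prodMk h2)

theorem def_zero (k : Kind) (x : MMs k) : def' k x 0 = x := by
  apply Subtype.ext
  show prodM k x.1 (GM k x.1 ((0 : ℝ≥0) : ℝ)) = x.1
  rw [NNReal.coe_zero, GM_zero, prodM_zero]

theorem def_smul (k : Kind) (t : Pos) (x : MMs k) (τ : ℝ≥0) :
    def' k (t • x) τ = t • def' k x τ := by
  apply Subtype.ext
  have h1 : prodM k (t • x.1) (GM k (t • x.1) τ) = t • prodM k x.1 (GM k x.1 τ) :=
    (congrArg (prodM k (t • x.1)) (GM_smul k t x.1 τ.2)).trans (smul_prodM k t x.1 _).symm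
  exact h1

/-- the parameter `t / (1 - t)` -/
noncomputable def par (t : I) : ℝ≥0 := ((t : ℝ) / (1 - t)).toNNReal

theorem par_coe (t : I) (_ht : (t : ℝ) < 1) : ((par t : ℝ≥0) : ℝ) = (t : ℝ) / (1 - t) :=
  Real.coe_toNNReal _ (div_nonneg t.2.1 (by linarith [t.2.2]))

/-- the homotopy on `𝒳_*` -/
noncomputable def hom (k : Kind) (p : I × MMs k) : Sig k :=
  if (p.1 : ℝ) < 1 then proj k (def' k p.2 (par p.1)) else proj k (y₀ k)

theorem hom_smul (k : Kind) (t : Pos) (s : I) (x : MMs k) : hom k (s, t • x) = hom k (s, x) := by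
  unfold hom
  simp only
  split_ifs with h
  · rw [def_smul, proj_smul]
  · rfl

/-- key estimate near time one -/
theorem near_one (k : Kind) (x : MMs k) {η : ℝ≥0} (hη : 0 < η) :
    ∃ ε₀ : ℝ≥0, 0 < ε₀ ∧ ∃ T : ℝ, ∀ (y : MMs k) (τ : ℝ≥0), edist y.1 x.1 < ε₀ → T ≤ τ →
      ∃ z : MMs k, proj k z = proj k (def' k y τ) ∧ edist z.1 (y₀ k).1 < η := by
  obtain ⟨x, hx⟩ := x
  induction x using Quotient.inductionOn with | _ X => ?_
  obtain ⟨a, b, hab⟩ := cls_ne_point.1 hx
  have hP := Phi_pos X hab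
  obtain ⟨s₀, hs₀, hsh⟩ := shrink X (η := η / 8) (by positivity)
  let c : ℝ≥0 := (Phi X 1 / 8).toNNReal
  have hc : (c : ℝ) = Phi X 1 / 8 := Real.coe_toNNReal _ (by positivity)
  have hcpos : 0 < c := by
    rw [← NNReal.coe_pos, hc]
    positivity
  refine ⟨min c (η / 8), lt_min hcpos (by positivity),
    (max 1 (1 / s₀) + 1) / (Phi X 1 / 2), fun y τ hy hτ => ?_⟩
  obtain ⟨y, hyne⟩ := y
  induction y using Quotient.inductionOn with | _ Y => ?_
  have hy' : distSp k Y X < ((min c (η / 8) : ℝ≥0) : ℝ≥0∞) := hy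
  obtain ⟨ε, hε, hg⟩ := distSp_lt_iff.1 hy'
  have hε1 : ε < min c (η / 8) := by exact_mod_cast hε
  have hε2 : (ε : ℝ) < Phi X 1 / 8 := by
    have h1 : ε < c := lt_of_lt_of_le hε1 (min_le_left _ _)
    rw [← hc]
    exact_mod_cast h1
  have hε3 : ε < η / 8 := lt_of_lt_of_le hε1 (min_le_right _ _)
  -- the functional is large
  have h1 := Phi_compare hg.symm.cGood (r := 1) zero_le_one
  have h2 : Phi X 1 / 2 ≤ Phi Y 1 := by linarith
  have h3 := le_G Y τ.2 (r := 1) zero_le_one
  have h4 : max 1 (1 / s₀) ≤ G Y τ := by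
    have h5 : (max 1 (1 / s₀) + 1) ≤ τ * (Phi X 1 / 2) := by
      rwa [div_le_iff₀ (by positivity)] at hτ
    have h6 : (τ : ℝ) * (Phi X 1 / 2) ≤ τ * Phi Y 1 := mul_le_mul_of_nonneg_left h2 τ.2
    have h7 : ((τ : ℝ≥0) : ℝ) * Phi Y 1 - 1 ≤ G Y τ := h3
    linarith
  have hbpos : 0 < G Y τ := lt_of_lt_of_le (lt_of_lt_of_le one_pos (le_max_left _ _)) h4
  let t : Pos := ⟨(G Y τ)⁻¹, inv_pos.2 hbpos⟩
  have ht1 : t.1 ≤ 1 := inv_le_one_of_one_le₀ ((le_max_left _ _).trans h4)
  have hts : t.1 ≤ s₀ := by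
    have h5 : 1 / s₀ ≤ G Y τ := (le_max_right _ _).trans h4
    have h6 := inv_anti₀ (by positivity) h5
    simpa using h6
  refine ⟨t • def' k ⟨cls k Y, hyne⟩ τ, proj_smul k t _, ?_⟩
  have h5 : (t • def' k ⟨cls k Y, hyne⟩ τ : MMs k).1 = cls k (prodSp (scale t Y) 1) := by
    show t • prodM k (cls k Y) (GM k (cls k Y) τ) = _
    rw [smul_prodM, smul_cls, GM_cls, prodM_cls]
    have : t.1 * G Y τ = 1 := inv_mul_cancel₀ hbpos.ne'
    rw [this]
  rw [h5]
  show distSp k (prodSp (scale t Y) 1) (prodSp pt 1) < η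
  have h6 : Good k (max t.1.toNNReal 1 * ε) (scale t Y) (scale t X) := hg.scale t
  have h7 : max t.1.toNNReal 1 = 1 := by
    rw [max_eq_right]
    rw [Real.toNNReal_le_one]
    exact ht1
  rw [h7, one_mul] at h6
  have h8 := (h6.trans (good_of_box k (hsh t hts))).prod 1 1
  refine (distSp_le h8).trans_lt ?_
  rw [sub_self, abs_zero, Real.toNNReal_zero, add_zero]
  have h9 : 2 * (ε + η / 8) < η := by
    rw [← NNReal.coe_lt_coe] at hε3 ⊢
    push_cast at hε3 ⊢
    have : (0 : ℝ) < η := hη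
    linarith
  exact_mod_cast h9

theorem continuousAt_par {t : I} (ht : (t : ℝ) < 1) : ContinuousAt par t := by
  have h4 : ContinuousAt (fun s : I => (s : ℝ) / (1 - s)) t := by
    have h5 : Continuous fun s : I => (s : ℝ) := continuous_subtype_val
    exact h5.continuousAt.div (continuousAt_const.sub h5.continuousAt) (by linarith)
  exact ContinuousAt.comp (g := Real.toNNReal) continuous_real_toNNReal.continuousAt h4

theorem continuous_projdef (k : Kind) :
    Continuous fun p : MMs k × ℝ≥0 => proj k (def' k p.1 p.2) :=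
  (proj_open k).continuous.comp (continuous_def k)

theorem continuousAt_pre (k : Kind) {t : I} (ht : (t : ℝ) < 1) (x : MMs k) :
    ContinuousAt (fun p : I × MMs k => proj k (def' k p.2 (par p.1))) (t, x) := by
  have h6 : ContinuousAt (fun p : I × MMs k => par p.1) (t, x) :=
    ContinuousAt.comp (f := fun p : I × MMs k => p.1) (g := par) (continuousAt_par ht)
      continuousAt_fst
  have h7 : ContinuousAt (fun p : I × MMs k => (p.2, par p.1)) (t, x) :=
    ContinuousAt.prodMk continuousAt_snd h6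
  exact ContinuousAt.comp (f := fun p : I × MMs k => (p.2, par p.1))
    (g := fun q : MMs k × ℝ≥0 => proj k (def' k q.1 q.2))
    (continuous_projdef k).continuousAt h7

theorem continuous_time (k : Kind) : Continuous fun p : I × MMs k => (p.1 : ℝ) :=
  continuous_subtype_val.comp continuous_fst

theorem eventually_time_lt (k : Kind) {t : I} (ht : (t : ℝ) < 1) (x : MMs k) :
    ∀ᶠ p : I × MMs k in 𝓝 (t, x), (p.1 : ℝ) < 1 :=
  (continuous_time k).continuousAt.eventually_lt_const ht

theorem eventually_lt_time (k : Kind) {t : I} {c : ℝ} (ht : c < (t : ℝ)) (x : MMs k) :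
    ∀ᶠ p : I × MMs k in 𝓝 (t, x), c < (p.1 : ℝ) :=
  (continuous_time k).continuousAt.eventually_const_lt ht

theorem eventually_near (k : Kind) (t : I) (x : MMs k) {ε₀ : ℝ≥0} (hε₀ : 0 < ε₀) :
    ∀ᶠ p : I × MMs k in 𝓝 (t, x), edist p.2.1 x.1 < ε₀ := by
  have h2 : Continuous fun p : I × MMs k => edist p.2.1 x.1 :=
    (continuous_subtype_val.comp continuous_snd).edist continuous_const
  have h3 : (fun p : I × MMs k => edist p.2.1 x.1) (t, x) < ε₀ := by
    show edist x.1 x.1 < _
    rw [edist_self]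
    exact_mod_cast hε₀
  exact h2.continuousAt.eventually_lt_const h3

theorem exists_ball (k : Kind) (y : MMs k) {W : Set (Sig k)} (hW : IsOpen W)
    (hy : proj k y ∈ W) : ∃ η : ℝ≥0, 0 < η ∧ ∀ z : MMs k, edist z.1 y.1 < η → proj k z ∈ W := by
  have hpre : IsOpen (proj k ⁻¹' W) := hW.preimage (proj_open k).continuous
  obtain ⟨U, hU, hUW⟩ := isOpen_induced_iff.1 hpre
  have hyU : y.1 ∈ U := (Set.ext_iff.1 hUW y).2 hy
  obtain ⟨η, hη, hηU⟩ := EMetric.mem_nhds_iff.1 (hU.mem_nhds hyU)
  obtain ⟨η', hη', hη'η⟩ := ENNReal.lt_iff_exists_nnreal_btwn.1 hη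
  refine ⟨η', by exact_mod_cast hη', fun z hz => ?_⟩
  exact (Set.ext_iff.1 hUW z).1 (hηU (hz.trans hη'η))

theorem time_bound {s T : ℝ} (hs : s < 1) (h : 1 - 1 / (|T| + 2) < s) : T ≤ s / (1 - s) := by
  have e1 : 0 < 1 - s := by linarith
  rw [le_div_iff₀ e1]
  have e2 : 1 - s < 1 / (|T| + 2) := by linarith
  have e3 : (1 - s) * (|T| + 2) < 1 := by
    rwa [lt_div_iff₀ (by positivity)] at e2
  have e4 : T * (1 - s) ≤ |T| * (1 - s) :=
    mul_le_mul_of_nonneg_right (le_abs_self T) e1.le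
  nlinarith

theorem continuousAt_end (k : Kind) {t : I} (ht : ¬ (t : ℝ) < 1) (x : MMs k) :
    ContinuousAt (hom k) (t, x) := by
  have h0 : hom k (t, x) = proj k (y₀ k) := if_neg ht
  rw [ContinuousAt, h0]
  intro V hV
  obtain ⟨W, hWV, hW, hyW⟩ := mem_nhds_iff.1 hV
  obtain ⟨η, hη, hηW⟩ := exists_ball k (y₀ k) hW hyW
  obtain ⟨ε₀, hε₀, T, hT⟩ := near_one k x hη
  have h1 := eventually_near k t x hε₀
  have h2 : ∀ᶠ p : I × MMs k in 𝓝 (t, x), 1 - 1 / (|T| + 2) < (p.1 : ℝ) := by
    refine eventually_lt_time k ?_ x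
    have h4 : (1 : ℝ) ≤ t := not_lt.1 ht
    have h5 : 0 < 1 / (|T| + 2) := by positivity
    linarith
  rw [mem_map]
  filter_upwards [h1, h2] with p hp1 hp2
  apply hWV
  by_cases hp : (p.1 : ℝ) < 1
  · have hτ : T ≤ (par p.1 : ℝ≥0) := by
      rw [par_coe _ hp]
      exact time_bound hp hp2
    obtain ⟨z, hz, hz'⟩ := hT p.2 (par p.1) hp1 hτ
    have h3 : hom k p = proj k (def' k p.2 (par p.1)) := if_pos hp
    rw [h3, ← hz]
    exact hηW z hz'
  · have h3 : hom k p = proj k (y₀ k) := if_neg hp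
    rw [h3]
    exact hyW

theorem continuous_hom (k : Kind) : Continuous (hom k) := by
  rw [continuous_iff_continuousAt]
  rintro ⟨t, x⟩
  by_cases ht : (t : ℝ) < 1
  · have h3 : (hom k) =ᶠ[𝓝 (t, x)] fun p => proj k (def' k p.2 (par p.1)) := by
      filter_upwards [eventually_time_lt k ht x] with p hp
      exact if_pos hp
    exact (continuousAt_pre k ht x).congr h3.symm
  · exact continuousAt_end k ht x

/-- the homotopy on `Σ` -/
noncomputable def homS (k : Kind) (p : I × Sig k) : Sig k :=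
  Quotient.lift (fun x : MMs k => hom k (p.1, x)) (fun a b h => by
    obtain ⟨t, ht⟩ : ∃ t : Pos, t • b = a := h
    show hom k (p.1, a) = hom k (p.1, b)
    rw [← ht, hom_smul]) p.2

theorem homS_proj (k : Kind) (t : I) (x : MMs k) : homS k (t, proj k x) = hom k (t, x) := rfl

theorem continuous_homS (k : Kind) : Continuous (homS k) := by
  have h1 : IsOpenQuotientMap (Prod.map (id : I → I) (proj k)) :=
    IsOpenQuotientMap.id.prodMap (proj_open k)
  rw [← h1.continuous_comp_iff]
  exact continuous_hom k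

/-- The scaling quotient is contractible. -/
theorem contractible_Sig (k : Kind) : ContractibleSpace (Sig k) := by
  rw [contractible_iff_id_nullhomotopic]
  refine ⟨proj k (y₀ k), ⟨⟨⟨homS k, continuous_homS k⟩, ?_, ?_⟩⟩⟩
  · intro s
    obtain ⟨x, rfl⟩ := (proj_open k).surjective s
    show homS k (0, proj k x) = proj k x
    rw [homS_proj]
    have h0 : par 0 = 0 := by simp [par]
    have h1 : ((0 : I) : ℝ) < 1 := by simp
    simp only [hom, if_pos h1, h0, def_zero]
  · intro s
    obtain ⟨x, rfl⟩ := (proj_open k).surjective s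
    show homS k (1, proj k x) = proj k (y₀ k)
    rw [homS_proj]
    simp [hom]

end Q233.SG
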