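import Pool.Agent.Q233.SG.Func

/-!
# The Legendre type functional
-/

set_option autoImplicit false

open Set Filter Topology MeasureTheory NNReal ENNReal

namespace Q233.SG

open Q178.Box

/-- `G X τ = sup_{r ≥ 0} (τ Φ(X, r) - r)` -/
noncomputable def G (X : MMSpace) (τ : ℝ) : ℝ :=
  ⨆ r : {r : ℝ // 0 ≤ r}, (τ * Phi X r.1 - r.1)

theorem near (X : MMSpace) {τ : ℝ} (hτ : 0 ≤ τ) : ∃ R : ℝ, 0 ≤ R ∧ ∃ δ : ℝ, 0 < δ ∧ δ ≤ 1 ∧
    ∀ (ε : ℝ≥0) (Y : MMSpace) (τ' : ℝ), 0 ≤ τ' → (ε : ℝ) ≤ δ → |τ' - τ| ≤ δ → CGood ε X Y →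
      ∀ r : ℝ, R ≤ r → τ' * Phi Y r - r ≤ 0 := by
  have hp : 0 < τ + 1 := by linarith
  obtain ⟨M, hM, hlin⟩ := Phi_linear X (δ := 1 / (4 * (τ + 1))) (by positivity)
  refine ⟨2 * (τ + 1) * (M + 1), by positivity, 1 / (8 * (τ + 1)), by positivity, ?_, ?_⟩
  · rw [div_le_one (by positivity)]
    linarith
  intro ε Y τ' hτ' hε hττ hC r hr
  have hδ1 : 1 / (8 * (τ + 1)) ≤ 1 := by
    rw [div_le_one (by positivity)]
    linarith
  have hr0 : 0 ≤ r := le_trans (by positivity) hr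
  have h1 := Phi_compare hC.symm hr0
  have h2 := hlin r hr0
  have hτ1 : τ' ≤ τ + 1 := by
    have := (abs_le.1 hττ).2
    linarith
  have hε0 : (0 : ℝ) ≤ ε := ε.2
  have h3 : Phi Y r ≤ M + 1 + 1 / (2 * (τ + 1)) * r := by
    have e1 : (ε : ℝ) ≤ 1 / 8 := by
      refine hε.trans ?_
      rw [div_le_div_iff₀ (by positivity) (by norm_num)]
      linarith
    have e2 : 2 * (ε : ℝ) * r ≤ 2 * (1 / (8 * (τ + 1))) * r := by gcongr
    have e3 : 1 / (2 * (τ + 1)) * r = 1 / (4 * (τ + 1)) * r + 2 * (1 / (8 * (τ + 1))) * r := by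
      field_simp
      ring
    rw [e3]
    linarith
  have h4 : τ' * Phi Y r ≤ (τ + 1) * (M + 1 + 1 / (2 * (τ + 1)) * r) :=
    mul_le_mul hτ1 h3 (Phi_nonneg Y r) hp.le
  have h5 : (τ + 1) * (M + 1 + 1 / (2 * (τ + 1)) * r) = (τ + 1) * (M + 1) + r / 2 := by
    field_simp
  rw [h5] at h4
  nlinarith [h4, hr]

theorem bdd (X : MMSpace) {τ : ℝ} (hτ : 0 ≤ τ) :
    BddAbove (range fun r : {r : ℝ // 0 ≤ r} => τ * Phi X r.1 - r.1) := by
  obtain ⟨R, hR, δ, hδ, -, h⟩ := near X hτ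
  refine ⟨τ * R, ?_⟩
  rintro _ ⟨⟨r, hr⟩, rfl⟩
  simp only
  rcases le_total R r with h1 | h1
  · exact (h 0 X τ hτ (by simpa using hδ.le) (by simpa using hδ.le) (CGood.refl X) r h1).trans
      (by positivity)
  · have h2 : τ * Phi X r ≤ τ * R := mul_le_mul_of_nonneg_left ((Phi_le X hr).trans h1) hτ
    linarith

theorem le_G (X : MMSpace) {τ : ℝ} (hτ : 0 ≤ τ) {r : ℝ} (hr : 0 ≤ r) :
    τ * Phi X r - r ≤ G X τ :=
  le_ciSup (bdd X hτ) (⟨r, hr⟩ : {r : ℝ // 0 ≤ r})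

theorem G_nonneg (X : MMSpace) {τ : ℝ} (hτ : 0 ≤ τ) : 0 ≤ G X τ := by
  have h1 := le_G X hτ (le_refl (0 : ℝ))
  have h2 : 0 ≤ τ * Phi X 0 := mul_nonneg hτ (Phi_nonneg X 0)
  linarith

theorem G_zero (X : MMSpace) : G X 0 = 0 := by
  apply le_antisymm _ (G_nonneg X le_rfl)
  haveI : Nonempty {r : ℝ // 0 ≤ r} := ⟨⟨0, le_rfl⟩⟩
  refine ciSup_le fun r => ?_
  have := r.2
  linarith

theorem G_iso {X Y : MMSpace} (h : Iso X Y) (τ : ℝ) : G X τ = G Y τ := by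
  unfold G
  congr 1
  funext r
  rw [Phi_iso h r.2]

theorem G_scale (t : Pos) (X : MMSpace) {τ : ℝ} (hτ : 0 ≤ τ) :
    G (scale t X) τ = t.1 * G X τ := by
  haveI : Nonempty {r : ℝ // 0 ≤ r} := ⟨⟨0, le_rfl⟩⟩
  apply le_antisymm
  · refine ciSup_le fun r => ?_
    have h1 := le_G X hτ (div_nonneg r.2 t.2.le)
    have h2 : r.1 = t.1 * (r.1 / t.1) := by
      field_simp [t.2.ne']
    have h3 : Phi (scale t X) r.1 = t.1 * Phi X (r.1 / t.1) := by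
      rw [← Phi_scale t X (div_nonneg r.2 t.2.le), ← h2]
    rw [h3]
    calc τ * (t.1 * Phi X (r.1 / t.1)) - r.1
        = t.1 * (τ * Phi X (r.1 / t.1) - r.1 / t.1) := by rw [mul_sub, ← h2]; ring
      _ ≤ t.1 * G X τ := mul_le_mul_of_nonneg_left h1 t.2.le
  · rw [← le_div_iff₀' t.2]
    refine ciSup_le fun r => ?_
    rw [le_div_iff₀' t.2]
    have h1 := le_G (scale t X) hτ (mul_nonneg t.2.le r.2)
    rw [Phi_scale t X r.2] at h1
    calc t.1 * (τ * Phi X r.1 - r.1) = τ * (t.1 * Phi X r.1) - t.1 * r.1 := by ring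
      _ ≤ _ := h1

/-- continuity of the functional -/
theorem G_cont (X : MMSpace) {τ : ℝ} (hτ : 0 ≤ τ) : ∃ K : ℝ, 0 ≤ K ∧ ∃ δ : ℝ, 0 < δ ∧
    ∀ (ε : ℝ≥0) (Y : MMSpace) (τ' : ℝ), 0 ≤ τ' → (ε : ℝ) ≤ δ → |τ' - τ| ≤ δ → CGood ε X Y →
      |G Y τ' - G X τ| ≤ K * (|τ' - τ| + ε) := by
  haveI : Nonempty {r : ℝ // 0 ≤ r} := ⟨⟨0, le_rfl⟩⟩
  obtain ⟨R, hR, δ, hδ, hδ1, h⟩ := near X hτ
  refine ⟨R + (τ + 1) * (2 + 2 * R), by positivity, δ, hδ, ?_⟩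
  intro ε Y τ' hτ' hε hττ hC
  have hε0 : (0 : ℝ) ≤ ε := ε.2
  have hτ1 : τ' ≤ τ + 1 := by
    have := (abs_le.1 hττ).2
    linarith
  have hab := abs_nonneg (τ' - τ)
  -- the error
  have herr : |τ' - τ| * R + (τ + 1) * ((2 + 2 * R) * ε) ≤
      (R + (τ + 1) * (2 + 2 * R)) * (|τ' - τ| + ε) := by
    have e1 : 0 ≤ (τ + 1) * (2 + 2 * R) * |τ' - τ| := by positivity
    have e2 : 0 ≤ R * ε := by positivity
    nlinarith
  have herr0 : 0 ≤ |τ' - τ| * R + (τ + 1) * ((2 + 2 * R) * ε) := by positivity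
  -- one step
  have step : ∀ (A B : MMSpace) (a b : ℝ), 0 ≤ a → a ≤ τ + 1 → 0 ≤ b → |a - b| = |τ' - τ| →
      CGood ε A B → (∀ r, R ≤ r → a * Phi A r - r ≤ 0) →
      G A a ≤ G B b + (|τ' - τ| * R + (τ + 1) * ((2 + 2 * R) * ε)) := by
    intro A B a b ha ha1 hb hab' hAB hz
    refine ciSup_le fun r => ?_
    rcases le_total R r.1 with h1 | h1
    · have := G_nonneg B hb
      have := hz r.1 h1
      linarith
    · have e1 := Phi_compare hAB r.2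
      have e2 := le_G B hb r.2
      have e3 : (a - b) * Phi B r.1 ≤ |a - b| * R :=
        mul_le_mul (le_abs_self _) ((Phi_le B r.2).trans h1) (Phi_nonneg B _) (abs_nonneg _)
      have e4 : a * Phi A r.1 ≤ a * (Phi B r.1 + 2 * ε + 2 * ε * r.1) :=
        mul_le_mul_of_nonneg_left e1 ha
      have e5 : a * (2 * ε + 2 * ε * r.1) ≤ (τ + 1) * ((2 + 2 * R) * ε) := by
        apply mul_le_mul ha1 _ _ (by linarith)
        · nlinarith
        · have := r.2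
          positivity
      rw [hab'] at e3
      have e6 : a * (Phi B r.1 + 2 * ε + 2 * ε * r.1) =
          b * Phi B r.1 + (a - b) * Phi B r.1 + a * (2 * ε + 2 * ε * r.1) := by ring
      linarith
  have h1 := step Y X τ' τ hτ' hτ1 hτ rfl hC.symm (fun r hr => h ε Y τ' hτ' hε hττ hC r hr)
  have h2 := step X Y τ τ' hτ (by linarith) hτ' (abs_sub_comm _ _) hC
    (fun r hr => h 0 X τ hτ (by simpa using hδ.le) (by simpa using hδ.le) (CGood.refl X) r hr)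
  rw [abs_le]
  constructor <;> linarith

end Q233.SG
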