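import Pool.Agent.Q233.SG.Space

/-!
# The product of an mm-space with the two-point space
-/

set_option autoImplicit false

open Set Filter Topology MeasureTheory NNReal ENNReal

namespace Q233.SG

open Q178.Box

/-- the fair coin -/
noncomputable def coin : Measure Bool :=
  (2⁻¹ : ℝ≥0∞) • Measure.dirac false + (2⁻¹ : ℝ≥0∞) • Measure.dirac true

instance : IsProbabilityMeasure coin := ⟨by
  simp [coin, ENNReal.inv_two_add_inv_two]⟩

theorem coin_pos (e : Bool) : coin {e} ≠ 0 := by
  cases e <;> simp [coin]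

/-- the points of the two-point space -/
def yb (b : ℝ) (e : Bool) : ({0, b} : Set ℝ) := if e then ⟨b, by simp⟩ else ⟨0, by simp⟩

theorem yb_surj (b : ℝ) : Function.Surjective (yb b) := by
  rintro ⟨y, hy⟩
  rcases hy with h | h
  · exact ⟨false, Subtype.ext h.symm⟩
  · have h' : y = b := h
    exact ⟨true, Subtype.ext (by simp [yb, h'])⟩

theorem dist_yb (b : ℝ) (e e' : Bool) :
    dist (yb b e) (yb b e') = if e = e' then 0 else |b| := by
  rw [Subtype.dist_eq]
  cases e <;> cases e' <;> simp [yb, Real.dist_eq]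

/-- representation of the product space -/
def rep0 (X : MMSpace) (b : ℝ) (p : X × Bool) : WithLp 1 (X × ({0, b} : Set ℝ)) :=
  WithLp.toLp 1 (p.1, yb b p.2)

theorem measurable_rep0 (X : MMSpace) (b : ℝ) : Measurable (rep0 X b) := by
  apply (WithLp.measurable_toLp 1 _).comp
  exact measurable_fst.prodMk ((measurable_of_countable (yb b)).comp measurable_snd)

theorem rep0_surj (X : MMSpace) (b : ℝ) : Function.Surjective (rep0 X b) := by
  intro z
  obtain ⟨e, he⟩ := yb_surj b z.snd
  refine ⟨(z.fst, e), ?_⟩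
  unfold rep0
  rw [he]
  rfl

/-- The product of `X` with a two-point space of diameter `|b|` (`ℓ¹` product). -/
noncomputable def prodSp (X : MMSpace) (b : ℝ) : MMSpace where
  carrier := WithLp 1 (X × ({0, b} : Set ℝ))
  complete := by
    have : CompleteSpace ({0, b} : Set ℝ) :=
      (Set.toFinite ({0, b} : Set ℝ)).isCompact.isClosed.completeSpace_coe
    infer_instance
  separable := by
    have : SecondCountableTopology X := UniformSpace.secondCountable_of_separable _
    infer_instance
  borel := by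
    have : SecondCountableTopology X := UniformSpace.secondCountable_of_separable _
    infer_instance
  μ := Measure.map (rep0 X b) (X.μ.prod coin)
  prob := Measure.isProbabilityMeasure_map (measurable_rep0 X b).aemeasurable
  full := by
    have : SecondCountableTopology X := UniformSpace.secondCountable_of_separable _
    rw [eq_univ_iff_forall]
    intro z
    obtain ⟨⟨x, e⟩, rfl⟩ := rep0_surj X b z
    rw [Measure.mem_support_iff_forall]
    intro U hU
    have hc : Continuous fun x' : X => rep0 X b (x', e) := by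
      apply (WithLp.prod_continuous_toLp 1 _ _).comp
      fun_prop
    have hV : {x' : X | rep0 X b (x', e) ∈ U} ∈ 𝓝 x := hc.continuousAt hU
    have h1 : 0 < X.μ {x' : X | rep0 X b (x', e) ∈ U} := by
      have hx : x ∈ X.μ.support := by rw [X.full]; exact mem_univ _
      exact (Measure.mem_support_iff_forall _).1 hx _ hV
    have h2 : 0 < (X.μ.prod coin) ({x' : X | rep0 X b (x', e) ∈ U} ×ˢ {e}) := by
      rw [Measure.prod_prod]
      exact ENNReal.mul_pos h1.ne' (coin_pos e)
    refine lt_of_lt_of_le h2 ?_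
    refine le_trans (measure_mono ?_) (Measure.le_map_apply (measurable_rep0 X b).aemeasurable _)
    rintro ⟨x', e'⟩ ⟨h3, h4⟩
    have h5 : e' = e := h4
    subst h5
    exact h3

/-- representation of the product space -/
def rep (X : MMSpace) (b : ℝ) (p : X × Bool) : prodSp X b := rep0 X b p

theorem measurable_rep (X : MMSpace) (b : ℝ) : Measurable (rep X b) := measurable_rep0 X b

theorem rep_surj (X : MMSpace) (b : ℝ) : Function.Surjective (rep X b) := rep0_surj X b

theorem map_rep (X : MMSpace) (b : ℝ) : Measure.map (rep X b) (X.μ.prod coin) = (prodSp X b).μ :=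
  rfl

theorem dist_rep (X : MMSpace) (b : ℝ) (p q : X × Bool) :
    dist (rep X b p) (rep X b q) = dist p.1 q.1 + if p.2 = q.2 then 0 else |b| := by
  rw [← dist_yb]
  have h1 := WithLp.prod_dist_eq_add (p := 1) (by simp) (rep0 X b p) (rep0 X b q)
  simp only [ENNReal.toReal_one, Real.rpow_one, div_one] at h1
  exact h1

theorem prodSp_iso {X X' : MMSpace} (h : Iso X X') (b : ℝ) : Iso (prodSp X b) (prodSp X' b) := by
  obtain ⟨e, he⟩ := h
  have hem : Measurable e := e.continuous.measurable
  refine iso_of_rep (X.μ.prod coin) (F := rep X b) (F' := rep X' b ∘ Prod.map e id)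
    (measurable_rep X b) (rep_surj X b) ((rep_surj X' b).comp ?_) (map_rep X b) ?_ ?_
  · exact e.surjective.prodMap Function.surjective_id
  · rw [← Measure.map_map (measurable_rep X' b) (hem.prodMap measurable_id),
      ← Measure.map_prod_map _ _ hem measurable_id, he, Measure.map_id, map_rep]
  · rintro ⟨x, c⟩ ⟨y, d⟩
    simp only [Function.comp_apply, Prod.map_apply, id_eq]
    rw [dist_rep, dist_rep, e.dist_eq]

theorem prodSp_zero (X : MMSpace) : Iso (prodSp X 0) X := by
  refine iso_of_rep (X.μ.prod coin) (F := rep X 0) (F' := Prod.fst)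
    (measurable_rep X 0) (rep_surj X 0) Prod.fst_surjective (map_rep X 0) ?_ ?_
  · rw [Measure.map_fst_prod, measure_univ, one_smul]
  · intro p q
    rw [dist_rep]
    simp

theorem prodSp_scale (t : Pos) (X : MMSpace) (b : ℝ) :
    Iso (prodSp (scale t X) (t.1 * b)) (scale t (prodSp X b)) := by
  refine iso_of_rep (A := prodSp (scale t X) (t.1 * b)) (B := scale t (prodSp X b))
    (X.μ.prod coin) (F := rep (scale t X) (t.1 * b)) (F' := rep X b)
    (measurable_rep (scale t X) _) (rep_surj (scale t X) _) (rep_surj X b)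
    (map_rep (scale t X) _) (map_rep X b) ?_
  intro p q
  rw [dist_rep (scale t X) (t.1 * b) p q, dist_scale t (prodSp X b) (rep X b p) (rep X b q),
    dist_rep, dist_scale t X p.1 q.1, abs_mul, abs_of_pos t.2]
  split_ifs <;> ring

/-- extension of functions from a representation -/
theorem lip_of_rep (X : MMSpace) (b : ℝ) (u : X × Bool → ℝ)
    (hu : ∀ p q, |u p - u q| ≤ dist p.1 q.1 + if p.2 = q.2 then 0 else |b|) :
    ∃ f : prodSp X b → ℝ, LipschitzWith 1 f ∧ ∀ p, f (rep X b p) = u p := by
  have h1 : ∀ p q, rep X b p = rep X b q → u p = u q := by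
    intro p q h
    have h2 := hu p q
    rw [← dist_rep, h, dist_self] at h2
    have h3 := abs_nonneg (u p - u q)
    have h4 : u p - u q = 0 := abs_eq_zero.1 (le_antisymm h2 h3)
    linarith
  let f : prodSp X b → ℝ := fun a => u (Function.surjInv (rep_surj X b) a)
  have hf : ∀ p, f (rep X b p) = u p := fun p => h1 _ _ (Function.surjInv_eq (rep_surj X b) _)
  refine ⟨f, ?_, hf⟩
  apply LipschitzWith.of_dist_le_mul
  intro a c
  obtain ⟨p, rfl⟩ := rep_surj X b a
  obtain ⟨q, rfl⟩ := rep_surj X b c
  rw [hf, hf, Real.dist_eq, dist_rep]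
  simpa using hu p q

theorem lip_iff {X : MMSpace} {f : X → ℝ} :
    LipschitzWith 1 f ↔ ∀ a b, |f a - f b| ≤ dist a b := by
  constructor
  · intro h a b
    simpa [Real.dist_eq] using h.dist_le_mul a b
  · intro h
    apply LipschitzWith.of_dist_le_mul
    intro a b
    simpa [Real.dist_eq] using h a b

theorem BoxGood.prod {ε : ℝ≥0} {X X' : MMSpace} (h : BoxGood ε X X') (b b' : ℝ) :
    BoxGood (2 * ε + (|b - b'|).toNNReal) (prodSp X b) (prodSp X' b') := by
  obtain ⟨φ, ψ, ⟨hφ, hφm⟩, ⟨hψ, hψm⟩, I₀, hI, hI', hd⟩ := h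
  refine boxGood_of (leb.prod coin) (f := rep X b ∘ Prod.map φ id)
    (g := rep X' b' ∘ Prod.map ψ id) ((measurable_rep X b).comp (hφ.prodMap measurable_id))
    ((measurable_rep X' b').comp (hψ.prodMap measurable_id)) ?_ ?_
    (S := I₀ ×ˢ univ) (hI.prod MeasurableSet.univ) ?_ ?_
  · rw [← Measure.map_map (measurable_rep X b) (hφ.prodMap measurable_id),
      ← Measure.map_prod_map _ _ hφ measurable_id, hφm, Measure.map_id, map_rep]
  · rw [← Measure.map_map (measurable_rep X' b') (hψ.prodMap measurable_id),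
      ← Measure.map_prod_map _ _ hψ measurable_id, hψm, Measure.map_id, map_rep]
  · rw [Measure.prod_prod, measure_univ, mul_one]
    refine le_trans (tsub_le_tsub_left ?_ 1) hI'
    push_cast
    have : (ε : ℝ≥0∞) ≤ 2 * ε := by
      rw [two_mul]
      exact le_self_add
    exact this.trans le_self_add
  · rintro ⟨s, e⟩ ⟨hs, -⟩ ⟨t, e'⟩ ⟨ht, -⟩
    simp only [Function.comp_apply, Prod.map_apply, id_eq]
    rw [dist_rep, dist_rep]
    have h1 := abs_le.1 (hd s hs t ht)
    have h2 : ((2 * ε + (|b - b'|).toNNReal : ℝ≥0) : ℝ) = 2 * ε + |b - b'| := by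
      push_cast
      rw [Real.coe_toNNReal _ (abs_nonneg _)]
    rw [h2]
    have h3 := abs_le.1 (abs_abs_sub_abs_le_abs_sub b b')
    have h4 : (0 : ℝ) ≤ ε := ε.2
    have h5 := abs_nonneg (b - b')
    simp only
    split_ifs
    · rw [abs_le]
      constructor <;> linarith [h1.1, h1.2]
    · rw [abs_le]
      constructor <;> linarith [h1.1, h1.2, h3.1, h3.2]

theorem clamp_bound {u0 u1 v0 v1 β β' ε : ℝ} (h0 : |u0 - v0| ≤ ε) (h1 : |u1 - v1| ≤ ε)
    (h2 : |u0 - u1| ≤ β) (hβ' : 0 ≤ β') :
    |u1 - max (min v1 (v0 + β')) (v0 - β')| ≤ ε + |β - β'| := by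
  rw [abs_le] at h0 h1 h2
  have e1 := le_abs_self (β - β')
  have e2 := neg_abs_le (β - β')
  rw [abs_le]
  rcases le_total v1 (v0 + β') with h | h
  · rw [min_eq_left h]
    rcases le_total v1 (v0 - β') with h' | h'
    · rw [max_eq_right h']
      constructor <;> linarith [h0.1, h0.2, h1.1, h1.2, h2.1, h2.2]
    · rw [max_eq_left h']
      constructor <;> linarith [h0.1, h0.2, h1.1, h1.2, h2.1, h2.2, abs_nonneg (β - β')]
  · rw [min_eq_right h, max_eq_left (by linarith)]
    constructor <;> linarith [h0.1, h0.2, h1.1, h1.2, h2.1, h2.2]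

theorem CGood.prod {ε : ℝ≥0} {X X' : MMSpace} (h : CGood ε X X') (b b' : ℝ) :
    CGood (2 * ε + (|b - b'|).toNNReal) (prodSp X b) (prodSp X' b') := by
  obtain ⟨φ, ψ, ⟨hφ, hφm⟩, ⟨hψ, hψm⟩, h1, h2⟩ := h
  have hE : ((2 * ε + (|b - b'|).toNNReal : ℝ≥0) : ℝ) = 2 * ε + |b - b'| := by
    push_cast
    rw [Real.coe_toNNReal _ (abs_nonneg _)]
  -- the extension step, in one direction
  have key : ∀ {A A' : MMSpace} (c c' : ℝ) (α : Ico (0 : ℝ) 1 → A) (β : Ico (0 : ℝ) 1 → A'),
      |(|c| - |c'|)| ≤ |b - b'| → (∀ f : A → ℝ, LipschitzWith 1 f → ∃ g : A' → ℝ, LipschitzWith 1 g ∧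
        leb {t | (ε : ℝ) < |f (α t) - g (β t)|} ≤ ε) → ∀ f : prodSp A c → ℝ, LipschitzWith 1 f →
      ∃ g : prodSp A' c' → ℝ, LipschitzWith 1 g ∧ (leb.prod coin)
        {p | ((2 * ε + (|b - b'|).toNNReal : ℝ≥0) : ℝ) <
          |f (rep A c (α p.1, p.2)) - g (rep A' c' (β p.1, p.2))|} ≤
            ((2 * ε + (|b - b'|).toNNReal : ℝ≥0) : ℝ≥0∞) := by
    intro A A' c c' α β hcc hA f hf
    have hf' := lip_iff.1 hf
    have hu : ∀ e, LipschitzWith 1 fun x : A => f (rep A c (x, e)) := by
      intro e
      rw [lip_iff]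
      intro x y
      refine (hf' _ _).trans ?_
      rw [dist_rep]
      simp
    obtain ⟨v0, hv0, hm0⟩ := hA _ (hu false)
    obtain ⟨v1, hv1, hm1⟩ := hA _ (hu true)
    have hv0' := lip_iff.1 hv0
    let w : A' → ℝ := fun x => max (min (v1 x) (v0 x + |c'|)) (v0 x - |c'|)
    have hw : LipschitzWith 1 w := by
      have e1 : LipschitzWith 1 fun x => v0 x + |c'| := by
        rw [lip_iff]
        intro x y
        have := hv0' x y
        simpa using this
      have e2 : LipschitzWith 1 fun x => v0 x - |c'| := by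
        rw [lip_iff]
        intro x y
        have := hv0' x y
        simpa using this
      have e3 := (hv1.min e1).max e2
      simpa using e3
    have hw' := lip_iff.1 hw
    have hwv : ∀ x, |w x - v0 x| ≤ |c'| := by
      intro x
      have hc := abs_nonneg c'
      simp only [w]
      rw [abs_le]
      constructor
      · have := le_max_right (min (v1 x) (v0 x + |c'|)) (v0 x - |c'|)
        linarith
      · have e1 := min_le_right (v1 x) (v0 x + |c'|)
        have e2 : max (min (v1 x) (v0 x + |c'|)) (v0 x - |c'|) ≤ v0 x + |c'| :=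
          max_le e1 (by linarith)
        linarith
    obtain ⟨g, hg, hgu⟩ := lip_of_rep A' c' (fun p => if p.2 then w p.1 else v0 p.1) (by
      rintro ⟨x, e⟩ ⟨y, e'⟩
      cases e <;> cases e' <;> simp only [Bool.false_eq_true, if_false, if_true,
        reduceCtorEq, add_zero]
      · exact hv0' x y
      · have e1 := hv0' x y
        have e2 := hwv y
        rw [abs_sub_comm] at e2
        have e3 := abs_sub_le (v0 x) (v0 y) (w y)
        linarith
      · have e1 := hv0' x y
        have e2 := hwv x
        have e3 := abs_sub_le (w x) (v0 x) (v0 y)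
        linarith
      · exact hw' x y)
    refine ⟨g, hg, ?_⟩
    have hsub : {p : Ico (0 : ℝ) 1 × Bool | ((2 * ε + (|b - b'|).toNNReal : ℝ≥0) : ℝ) <
        |f (rep A c (α p.1, p.2)) - g (rep A' c' (β p.1, p.2))|} ⊆
        ({t | (ε : ℝ) < |f (rep A c (α t, false)) - v0 (β t)|} ∪
          {t | (ε : ℝ) < |f (rep A c (α t, true)) - v1 (β t)|}) ×ˢ univ := by
      rintro ⟨t, e⟩ ht
      refine ⟨?_, mem_univ _⟩
      by_contra hc
      rw [mem_union, not_or] at hc
      obtain ⟨h3, h4⟩ := hc
      have h3' : |f (rep A c (α t, false)) - v0 (β t)| ≤ ε := not_lt.1 h3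
      have h4' : |f (rep A c (α t, true)) - v1 (β t)| ≤ ε := not_lt.1 h4
      have ht' : ((2 * ε + (|b - b'|).toNNReal : ℝ≥0) : ℝ) <
        |f (rep A c (α t, e)) - g (rep A' c' (β t, e))| := ht
      rw [hE, hgu] at ht'
      have h5 : (0 : ℝ) ≤ ε := ε.2
      have h6 := abs_nonneg (b - b')
      cases e
      · simp only [Bool.false_eq_true, if_false] at ht'
        linarith
      · simp only [if_true] at ht'
        have h7 : |f (rep A c (α t, false)) - f (rep A c (α t, true))| ≤ |c| := by
          refine (hf' _ _).trans ?_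
          rw [dist_rep]
          simp
        have h8 := clamp_bound h3' h4' h7 (abs_nonneg c')
        have h9 : |f (rep A c (α t, true)) - w (β t)| ≤ ε + |(|c| - |c'|)| := h8
        linarith
    refine (measure_mono hsub).trans ?_
    rw [Measure.prod_prod, measure_univ, mul_one]
    refine (measure_union_le _ _).trans ((add_le_add hm0 hm1).trans ?_)
    push_cast
    rw [two_mul]
    exact le_self_add
  have hbb := abs_abs_sub_abs_le_abs_sub b b'
  refine cGood_of (leb.prod coin) (F := rep X b ∘ Prod.map φ id)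
    (F' := rep X' b' ∘ Prod.map ψ id) ((measurable_rep X b).comp (hφ.prodMap measurable_id))
    ((measurable_rep X' b').comp (hψ.prodMap measurable_id)) ?_ ?_ ?_ ?_
  · rw [← Measure.map_map (measurable_rep X b) (hφ.prodMap measurable_id),
      ← Measure.map_prod_map _ _ hφ measurable_id, hφm, Measure.map_id, map_rep]
  · rw [← Measure.map_map (measurable_rep X' b') (hψ.prodMap measurable_id),
      ← Measure.map_prod_map _ _ hψ measurable_id, hψm, Measure.map_id, map_rep]
  · intro f hf
    exact key b b' φ ψ hbb h1 f hf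
  · intro g hg
    obtain ⟨f, hf, h3⟩ := key b' b ψ φ (by rw [abs_sub_comm]; exact hbb) (by
      intro g' hg'
      obtain ⟨f', hf', h4⟩ := h2 g' hg'
      refine ⟨f', hf', ?_⟩
      simpa only [abs_sub_comm] using h4) g hg
    refine ⟨f, hf, ?_⟩
    simp only [abs_sub_comm (g _)] at h3
    exact h3

end Q233.SG
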