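import Pool.Agent.Q233.SG.Glue

/-!
# The spaces `𝒳`, `𝒳_*` and `Σ` with the box and the concentration topology
-/

set_option autoImplicit false

open Set Filter Topology MeasureTheory NNReal ENNReal

namespace Q233.SG

open Q178.Box

/-- The two distances on the set of mm-spaces: the box distance and the observable distance. -/
inductive Kind
  | box
  | conc

/-- The distance of the given kind. -/
noncomputable def distSp : Kind → MMSpace → MMSpace → ℝ≥0∞
  | .box => boxSp
  | .conc => concSp

theorem distSp_self (k : Kind) (X : MMSpace) : distSp k X X = 0 := by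
  cases k
  · exact boxSp_self X
  · exact concSp_self X

theorem distSp_comm (k : Kind) (X Y : MMSpace) : distSp k X Y = distSp k Y X := by
  cases k
  · exact boxSp_comm X Y
  · exact concSp_comm X Y

theorem distSp_triangle (k : Kind) (X Y Z : MMSpace) :
    distSp k X Z ≤ distSp k X Y + distSp k Y Z := by
  cases k
  · exact boxSp_triangle X Y Z
  · exact concSp_triangle X Y Z

theorem distSp_iso (k : Kind) {X Y X' Y' : MMSpace} (hX : Iso X X') (hY : Iso Y Y') :
    distSp k X Y = distSp k X' Y' := by
  cases k
  · exact boxSp_iso hX hY
  · exact concSp_iso hX hY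

instance isoSetoid : Setoid MMSpace := ⟨Iso, Iso.refl, Iso.symm, Iso.trans⟩

/-- The set `𝒳` of the isomorphism classes of mm-spaces, equipped with the distance of kind `k`
(and with the topology of this distance). -/
def MM (_k : Kind) : Type 1 := Quotient isoSetoid

/-- The class of an mm-space. -/
def cls (k : Kind) (X : MMSpace) : MM k := Quotient.mk isoSetoid X

noncomputable instance (k : Kind) : PseudoEMetricSpace (MM k) where
  edist := Quotient.lift₂ (distSp k) fun _ _ _ _ h h' => distSp_iso k h h'
  edist_self x := Quotient.inductionOn x (distSp_self k)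
  edist_comm x y := Quotient.inductionOn₂ x y (distSp_comm k)
  edist_triangle x y z := Quotient.inductionOn₃ x y z (distSp_triangle k)

theorem edist_cls (k : Kind) (X Y : MMSpace) : edist (cls k X) (cls k Y) = distSp k X Y := rfl

theorem dist_scale (t : Pos) (X : MMSpace) (a b : X) :
    @dist (scale t X) _ a b = t.1 * dist a b := rfl

theorem scale_iso (t : Pos) {X Y : MMSpace} (h : Iso X Y) : Iso (scale t X) (scale t Y) := by
  obtain ⟨e, he⟩ := h
  refine iso_of_rep (Ω := X) X.μ (A := scale t X) (B := scale t Y) (F := fun a => a)
    (F' := fun a => e a) measurable_id Function.surjective_id e.surjective Measure.map_id he ?_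
  intro p q
  rw [dist_scale t X p q, dist_scale t Y (e p) (e q), e.dist_eq]

theorem scale_one_iso (X : MMSpace) : Iso (scale 1 X) X := by
  refine iso_of_rep (Ω := X) X.μ (A := scale 1 X) (B := X) (F := fun a => a)
    (F' := fun a => a) measurable_id Function.surjective_id Function.surjective_id
    Measure.map_id Measure.map_id ?_
  intro p q
  rw [dist_scale 1 X p q]
  exact one_mul _

theorem scale_mul_iso (s t : Pos) (X : MMSpace) : Iso (scale (s * t) X) (scale s (scale t X)) := by
  refine iso_of_rep (Ω := X) X.μ (A := scale (s * t) X) (B := scale s (scale t X))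
    (F := fun a => a) (F' := fun a => a) measurable_id Function.surjective_id
    Function.surjective_id Measure.map_id Measure.map_id ?_
  intro p q
  rw [dist_scale (s * t) X p q, dist_scale s (scale t X) p q, dist_scale t X p q, ← mul_assoc]
  rfl

/-- The action of the positive real numbers on `𝒳` by scaling. -/
noncomputable instance (k : Kind) : MulAction Pos (MM k) where
  smul t := Quotient.map (scale t) fun _ _ h => scale_iso t h
  one_smul x := Quotient.inductionOn x fun X => Quotient.sound (scale_one_iso X)
  mul_smul s t x := Quotient.inductionOn x fun X => Quotient.sound (scale_mul_iso s t X)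

theorem smul_cls (k : Kind) (t : Pos) (X : MMSpace) : t • cls k X = cls k (scale t X) := rfl

/-- The class of the one-point space. -/
noncomputable def point (k : Kind) : MM k := cls k pt

theorem smul_point (k : Kind) (t : Pos) : t • point k = point k := by
  refine Quotient.sound (iso_of_rep (Ω := Unit) (Measure.dirac ()) (A := scale t pt) (B := pt)
    (F := fun a => a) (F' := fun a => a) measurable_id Function.surjective_id
    Function.surjective_id Measure.map_id Measure.map_id ?_)
  intro p q
  rw [dist_scale t pt p q]
  have h1 : @dist pt _ p q = 0 := dist_self _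
  rw [h1, mul_zero]

/-- The punctured space `𝒳_* = 𝒳 ∖ {*}`, with the subspace topology. -/
def MMs (k : Kind) : Type 1 := {x : MM k // x ≠ point k}

noncomputable instance (k : Kind) : TopologicalSpace (MMs k) := instTopologicalSpaceSubtype

theorem smul_ne (k : Kind) (t : Pos) {x : MM k} (h : x ≠ point k) : t • x ≠ point k := by
  intro h1
  apply h
  rw [← smul_point k t] at h1
  exact smul_left_cancel t h1

/-- The action of the positive real numbers on `𝒳_*`. -/
noncomputable instance (k : Kind) : MulAction Pos (MMs k) where
  smul t x := ⟨t • x.1, smul_ne k t x.2⟩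
  one_smul x := Subtype.ext (one_smul Pos x.1)
  mul_smul s t x := Subtype.ext (mul_smul s t x.1)

/-- The scaling quotient `Σ = 𝒳_* / ℝ_+`, with the quotient topology. -/
noncomputable def Sig (k : Kind) : Type 1 := Quotient (MulAction.orbitRel Pos (MMs k))

noncomputable instance (k : Kind) : TopologicalSpace (Sig k) := instTopologicalSpaceQuotient

end Q233.SG
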