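import Pool.Agent.Q233.SG.Hom

/-!
# The punctured space `𝒳_*` is contractible
-/

set_option autoImplicit false

open Set Filter Topology MeasureTheory NNReal ENNReal unitInterval

namespace Q233.SG

open Q178.Box

/-- scaling by a non-negative number; scaling by zero gives the one-point space -/
noncomputable def sc (s : ℝ≥0) (X : MMSpace) : MMSpace :=
  if h : 0 < (s : ℝ) then scale ⟨s, h⟩ X else pt

theorem sc_pos {s : ℝ≥0} (h : 0 < (s : ℝ)) (X : MMSpace) : sc s X = scale ⟨s, h⟩ X := dif_pos h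

theorem sc_zero {s : ℝ≥0} (h : ¬ 0 < (s : ℝ)) (X : MMSpace) : sc s X = pt := dif_neg h

theorem sc_iso (s : ℝ≥0) {X Y : MMSpace} (h : Iso X Y) : Iso (sc s X) (sc s Y) := by
  by_cases hs : 0 < (s : ℝ)
  · rw [sc_pos hs, sc_pos hs]
    exact scale_iso _ h
  · rw [sc_zero hs, sc_zero hs]
    exact Iso.refl _

/-- a representation of all scalings of a space on the space itself -/
theorem sc_near (X : MMSpace) {η : ℝ≥0} (hη : 0 < η) : ∃ δ : ℝ, 0 < δ ∧ ∀ s t : ℝ≥0,
    |(s : ℝ) - t| ≤ δ → BoxGood η (sc s X) (sc t X) := by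
  obtain ⟨φ, hφ, hφm⟩ := exists_param X.μ
  obtain ⟨x₀⟩ : Nonempty X := X.μ.nonempty_of_neZero
  let D : ℕ → Set X := fun n => {x | (n : ℝ) < dist x x₀}
  have hDm : ∀ n, MeasurableSet (D n) := fun n =>
    measurableSet_lt measurable_const (by
      have : SecondCountableTopology X := UniformSpace.secondCountable_of_separable _
      exact measurable_id.dist measurable_const)
  have hDa : Antitone D := by
    intro n m hnm p hp
    have h1 : (m : ℝ) < dist p x₀ := hp
    have h2 : (n : ℝ) ≤ m := by exact_mod_cast hnm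
    exact h2.trans_lt h1
  have hD0 : ⋂ n, D n = ∅ := by
    rw [eq_empty_iff_forall_notMem]
    intro p hp
    obtain ⟨n, hn⟩ := exists_nat_gt (dist p x₀)
    have h1 : (n : ℝ) < dist p x₀ := mem_iInter.1 hp n
    linarith
  have hlim := tendsto_measure_iInter_atTop (μ := X.μ)
    (fun n => (hDm n).nullMeasurableSet) hDa ⟨0, measure_ne_top _ _⟩
  rw [hD0, measure_empty] at hlim
  have hev : ∀ᶠ n in atTop, X.μ (D n) < η :=
    hlim.eventually_lt_const (by simpa using hη)
  obtain ⟨n, hn⟩ := hev.exists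
  -- all scalings are represented by maps from `X`
  have hrep : ∀ s : ℝ≥0, ∃ f : Ico (0 : ℝ) 1 → sc s X, Measurable f ∧
      Measure.map f leb = (sc s X).μ ∧ ∀ p q, dist (f p) (f q) = s * dist (φ p) (φ q) := by
    intro s
    by_cases hs : 0 < (s : ℝ)
    · rw [sc_pos hs]
      exact ⟨φ, hφ, hφm, fun p q => dist_scale ⟨s, hs⟩ X (φ p) (φ q)⟩
    · rw [sc_zero hs]
      refine ⟨fun _ => (), measurable_const, ?_, fun p q => ?_⟩
      · rw [Measure.map_const, measure_univ, one_smul]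
        rfl
      · have h1 : @dist pt _ () () = 0 := dist_self _
        have h2 : (s : ℝ) = 0 := le_antisymm (not_lt.1 hs) s.2
        rw [h1, h2, zero_mul]
  refine ⟨η / (2 * (n + 1)), by positivity, fun s t hst => ?_⟩
  obtain ⟨f, hf, hfm, hfd⟩ := hrep s
  obtain ⟨g, hg, hgm, hgd⟩ := hrep t
  refine ⟨f, g, ⟨hf, hfm⟩, ⟨hg, hgm⟩, φ ⁻¹' (D n)ᶜ, hφ (hDm n).compl, ?_, ?_⟩
  · rw [← Measure.map_apply hφ (hDm n).compl, hφm, prob_compl_eq_one_sub (hDm n)]
    exact tsub_le_tsub_left hn.le 1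
  · intro p hp q hq
    rw [hfd, hgd, ← sub_mul, abs_mul, abs_of_nonneg (dist_nonneg (x := φ p) (y := φ q))]
    have h2 : dist (φ p) x₀ ≤ n := not_lt.1 hp
    have h3 : dist (φ q) x₀ ≤ n := not_lt.1 hq
    have h4 : dist (φ p) (φ q) ≤ 2 * (n + 1) := by
      have := dist_triangle_right (φ p) (φ q) x₀
      linarith
    calc |(s : ℝ) - t| * dist (φ p) (φ q) ≤ η / (2 * (n + 1)) * (2 * (n + 1)) :=
          mul_le_mul hst h4 dist_nonneg (by positivity)
      _ = η := by field_simp

/-- scaling on classes -/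
noncomputable def scM (k : Kind) (s : ℝ≥0) (x : MM k) : MM k :=
  Quotient.map (sc s) (fun _ _ h => sc_iso s h) x

theorem scM_cls (k : Kind) (s : ℝ≥0) (X : MMSpace) : scM k s (cls k X) = cls k (sc s X) := rfl

theorem scM_one (k : Kind) (x : MM k) : scM k 1 x = x := by
  induction x using Quotient.inductionOn with | _ X => ?_
  refine Quotient.sound ?_
  show Iso (sc 1 X) X
  have h1 : 0 < ((1 : ℝ≥0) : ℝ) := by norm_num
  rw [sc_pos h1]
  have h2 : (⟨((1 : ℝ≥0) : ℝ), h1⟩ : Pos) = 1 := Subtype.ext NNReal.coe_one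
  rw [h2]
  exact scale_one_iso X

theorem scM_zero (k : Kind) (x : MM k) : scM k 0 x = point k := by
  induction x using Quotient.inductionOn with | _ X => ?_
  show cls k (sc 0 X) = cls k pt
  rw [sc_zero (by simp)]

theorem sc_good (k : Kind) (s : ℝ≥0) {ε : ℝ≥0} {X Y : MMSpace} (h : Good k ε X Y) :
    distSp k (sc s X) (sc s Y) ≤ (max s 1 * ε : ℝ≥0) := by
  by_cases hs : 0 < (s : ℝ)
  · rw [sc_pos hs, sc_pos hs]
    have h1 := distSp_le (h.scale ⟨s, hs⟩)
    simp only [Real.toNNReal_coe] at h1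
    exact h1
  · rw [sc_zero hs, sc_zero hs, distSp_self]
    exact zero_le

theorem edist_scM (k : Kind) (s : ℝ≥0) (x y : MM k) :
    edist (scM k s x) (scM k s y) ≤ (max s 1 : ℝ≥0) * edist x y := by
  induction x using Quotient.inductionOn with | _ X => ?_
  induction y using Quotient.inductionOn with | _ Y => ?_
  have h2 := distSp_bound k (X := X) (Y := Y) (X' := sc s X) (Y' := sc s Y)
    (C := max s 1) (c := 0) fun ε hε => by
      rw [add_zero, ← ENNReal.coe_mul]
      exact sc_good k s hε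
  rw [add_zero] at h2
  exact h2

theorem continuous_scM (k : Kind) : Continuous fun p : ℝ≥0 × MM k => scM k p.1 p.2 := by
  rw [continuous_iff_continuousAt]
  rintro ⟨s, x⟩
  rw [ContinuousAt, EMetric.tendsto_nhds]
  intro r hr
  obtain ⟨η, hη, hηr⟩ := ENNReal.lt_iff_exists_nnreal_btwn.1 hr
  have hη0 : 0 < η := by exact_mod_cast hη
  obtain ⟨δ, hδ, hX⟩ : ∃ δ : ℝ, 0 < δ ∧ ∀ u : ℝ≥0, |(u : ℝ) - s| ≤ δ →
      edist (scM k u x) (scM k s x) ≤ (η / 2 : ℝ≥0) := by
    induction x using Quotient.inductionOn with | _ X => ?_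
    obtain ⟨δ, hδ, h⟩ := sc_near X (η := η / 2) (by positivity)
    exact ⟨δ, hδ, fun u hu => distSp_le (good_of_box k (h u s hu))⟩
  have h1 : ∀ᶠ p : ℝ≥0 × MM k in 𝓝 (s, x), |(p.1 : ℝ) - s| < min δ 1 := by
    have h3 : Continuous fun p : ℝ≥0 × MM k => |(p.1 : ℝ) - s| := by fun_prop
    refine h3.continuousAt.eventually_lt_const ?_
    show |(s : ℝ) - s| < _
    rw [sub_self, abs_zero]
    exact lt_min hδ one_pos
  have h2 : ∀ᶠ p : ℝ≥0 × MM k in 𝓝 (s, x), edist p.2 x < (η / (4 * (s + 1)) : ℝ≥0) := by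
    have h3 : Continuous fun p : ℝ≥0 × MM k => edist p.2 x := continuous_snd.edist continuous_const
    refine h3.continuousAt.eventually_lt_const ?_
    show edist x x < _
    rw [edist_self]
    have : 0 < η / (4 * (s + 1)) := by positivity
    exact_mod_cast this
  filter_upwards [h1, h2] with p hp1 hp2
  have e1 := edist_scM k p.1 p.2 x
  have e2 := hX p.1 (hp1.le.trans (min_le_left _ _))
  have e3 : ((max p.1 1 : ℝ≥0) : ℝ) ≤ s + 1 := by
    have := (abs_lt.1 (hp1.trans_le (min_le_right _ _))).2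
    push_cast
    exact max_le (by linarith) (by linarith [s.2])
  have e3' : max p.1 1 ≤ s + 1 := by exact_mod_cast e3
  have e4 : ((max p.1 1 : ℝ≥0) : ℝ≥0∞) * edist p.2 x ≤ ((s + 1) * (η / (4 * (s + 1))) : ℝ≥0) := by
    rw [ENNReal.coe_mul]
    exact mul_le_mul' (by exact_mod_cast e3') hp2.le
  have e5 : (s + 1) * (η / (4 * (s + 1))) = η / 4 := by
    rw [← NNReal.coe_inj]
    push_cast
    have : (s : ℝ) + 1 ≠ 0 := by positivity
    field_simp
  rw [e5] at e4
  calc edist (scM k p.1 p.2) (scM k s x)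
      ≤ edist (scM k p.1 p.2) (scM k p.1 x) + edist (scM k p.1 x) (scM k s x) :=
        edist_triangle _ _ _
    _ ≤ ((η / 4 : ℝ≥0) : ℝ≥0∞) + ((η / 2 : ℝ≥0) : ℝ≥0∞) := add_le_add (e1.trans e4) e2
    _ = ((η / 4 + η / 2 : ℝ≥0) : ℝ≥0∞) := by rw [ENNReal.coe_add]
    _ ≤ (η : ℝ≥0∞) := by
        have : η / 4 + η / 2 ≤ η := by
          rw [← NNReal.coe_le_coe]
          push_cast
          have : (0 : ℝ) ≤ η := η.2
          linarith
        exact_mod_cast this
    _ < r := hηr

/-- the contraction of `𝒳_*` -/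
noncomputable def cM (k : Kind) (p : I × MMs k) : MM k :=
  prodM k (scM k (σ p.1 : ℝ).toNNReal p.2.1) (p.1 : ℝ)

theorem cM_ne (k : Kind) (p : I × MMs k) : cM k p ≠ point k := by
  unfold cM
  by_cases h : (p.1 : ℝ) = 0
  · have h1 : (σ p.1 : ℝ).toNNReal = 1 := by
      rw [unitInterval.coe_symm_eq, h, sub_zero, Real.toNNReal_one]
    rw [h, h1, prodM_zero, scM_one]
    exact p.2.2
  · exact prodM_ne_point_of_pos _ h

/-- The punctured space of mm-spaces is contractible. -/
theorem contractible_MMs (k : Kind) : ContractibleSpace (MMs k) := by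
  rw [contractible_iff_id_nullhomotopic]
  have hc : Continuous (cM k) := by
    have h1 : Continuous fun p : I × MMs k => (σ p.1 : ℝ).toNNReal := by fun_prop
    have h2 : Continuous fun p : I × MMs k => p.2.1 := continuous_subtype_val.comp continuous_snd
    have h3 : Continuous fun p : I × MMs k => scM k (σ p.1 : ℝ).toNNReal p.2.1 :=
      (continuous_scM k).comp (h1.prodMk h2)
    have h4 : Continuous fun p : I × MMs k => (p.1 : ℝ) := continuous_time k
    exact (continuous_prodM k).comp (h3.prodMk h4)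
  refine ⟨y₀ k, ⟨⟨⟨fun p => ⟨cM k p, cM_ne k p⟩, hc.subtype_mk _⟩, ?_, ?_⟩⟩⟩
  · intro x
    apply Subtype.ext
    show prodM k (scM k (σ (0 : I) : ℝ).toNNReal x.1) ((0 : I) : ℝ) = x.1
    rw [unitInterval.coe_symm_eq, Set.Icc.coe_zero, sub_zero, Real.toNNReal_one,
      prodM_zero, scM_one]
  · intro x
    apply Subtype.ext
    show prodM k (scM k (σ (1 : I) : ℝ).toNNReal x.1) ((1 : I) : ℝ) = prodM k (point k) 1
    rw [unitInterval.coe_symm_eq, Set.Icc.coe_one, sub_self, Real.toNNReal_zero, scM_zero]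

end Q233.SG
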