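import Pool.Agent.Q233.SG.Leg

/-!
# Continuity
-/

set_option autoImplicit false

open Set Filter Topology MeasureTheory NNReal ENNReal

namespace Q233.SG

open Q178.Box

/-- admissible numbers for the distance of kind `k` -/
def Good : Kind → ℝ≥0 → MMSpace → MMSpace → Prop
  | .box => BoxGood
  | .conc => CGood

theorem Good.cGood {k : Kind} {ε : ℝ≥0} {X Y : MMSpace} (h : Good k ε X Y) : CGood ε X Y := by
  cases k
  · exact BoxGood.cGood h
  · exact h

theorem good_of_box (k : Kind) {ε : ℝ≥0} {X Y : MMSpace} (h : BoxGood ε X Y) : Good k ε X Y := by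
  cases k
  · exact h
  · exact BoxGood.cGood h

theorem Good.symm {k : Kind} {ε : ℝ≥0} {X Y : MMSpace} (h : Good k ε X Y) : Good k ε Y X := by
  cases k
  · exact BoxGood.symm h
  · exact CGood.symm h

theorem Good.trans {k : Kind} {ε₁ ε₂ : ℝ≥0} {X Y Z : MMSpace} (h₁ : Good k ε₁ X Y)
    (h₂ : Good k ε₂ Y Z) : Good k (ε₁ + ε₂) X Z := by
  cases k
  · exact BoxGood.trans h₁ h₂
  · exact CGood.trans h₁ h₂

theorem Good.prod {k : Kind} {ε : ℝ≥0} {X X' : MMSpace} (h : Good k ε X X') (b b' : ℝ) :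
    Good k (2 * ε + (|b - b'|).toNNReal) (prodSp X b) (prodSp X' b') := by
  cases k
  · exact BoxGood.prod h b b'
  · exact CGood.prod h b b'

theorem distSp_le {k : Kind} {ε : ℝ≥0} {X Y : MMSpace} (h : Good k ε X Y) :
    distSp k X Y ≤ ε := by
  cases k
  · exact boxSp_le h
  · exact concSp_le h

theorem distSp_lt_iff {k : Kind} {X Y : MMSpace} {r : ℝ≥0∞} :
    distSp k X Y < r ↔ ∃ ε : ℝ≥0, (ε : ℝ≥0∞) < r ∧ Good k ε X Y := by
  cases k
  · exact boxSp_lt_iff
  · exact concSp_lt_iff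

/-- from admissible numbers to distances -/
theorem distSp_bound (k : Kind) {X Y X' Y' : MMSpace} {C : ℝ≥0} {c : ℝ≥0∞}
    (h : ∀ ε : ℝ≥0, Good k ε X Y → distSp k X' Y' ≤ C * ε + c) :
    distSp k X' Y' ≤ C * distSp k X Y + c := by
  refine ENNReal.le_of_forall_pos_le_add fun η hη hfin => ?_
  rcases eq_or_ne C 0 with rfl | hC
  · have h1 : ∃ ε, Good k ε X Y := by
      have h2 : distSp k X Y < ∞ := by
        refine lt_of_le_of_lt ?_ ENNReal.one_lt_top
        have h3 : boxSp X Y < 2 := (boxSp_le_one X Y).trans_lt (by norm_num)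
        obtain ⟨ε, hε, hg⟩ := boxSp_lt_iff.1 h3
        have h4 : distSp .box X Y ≤ 1 := boxSp_le_one X Y
        cases k
        · exact h4
        · refine le_of_forall_gt fun r hr => ?_
          obtain ⟨ε, hε, hg⟩ := boxSp_lt_iff.1 (h4.trans_lt hr)
          exact (concSp_le (BoxGood.cGood hg)).trans_lt hε
      obtain ⟨ε, -, hg⟩ := distSp_lt_iff.1 h2
      exact ⟨ε, hg⟩
    obtain ⟨ε, hg⟩ := h1
    have h5 := h ε hg
    simp only [ENNReal.coe_zero, zero_mul, zero_add] at h5 ⊢
    exact h5.trans le_self_add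
  · have hC' : (C : ℝ≥0∞) ≠ 0 := by simpa using hC
    have hd : distSp k X Y ≠ ∞ := by
      intro htop
      rw [htop, ENNReal.mul_top hC', top_add] at hfin
      exact lt_irrefl _ hfin
    have h1 : distSp k X Y < distSp k X Y + ((η / C : ℝ≥0) : ℝ≥0∞) := by
      refine ENNReal.lt_add_right hd ?_
      have : η / C ≠ 0 := div_ne_zero hη.ne' hC
      simpa using this
    obtain ⟨ε, hε, hg⟩ := distSp_lt_iff.1 h1
    refine (h ε hg).trans ?_
    have h2 : (C : ℝ≥0∞) * ε ≤ C * distSp k X Y + η := by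
      refine (mul_le_mul_right hε.le _).trans (le_of_eq ?_)
      rw [mul_add, ← ENNReal.coe_mul, mul_div_cancel₀ _ hC]
    calc (C : ℝ≥0∞) * ε + c ≤ C * distSp k X Y + η + c := by gcongr
      _ = C * distSp k X Y + c + η := by ring

/-! ### Scaling -/

theorem Good.scale {k : Kind} {ε : ℝ≥0} {X Y : MMSpace} (h : Good k ε X Y) (t : Pos) :
    Good k (max t.1.toNNReal 1 * ε) (scale t X) (scale t Y) := by
  have hε : (0 : ℝ) ≤ ε := ε.2
  have hmax : ((max t.1.toNNReal 1 * ε : ℝ≥0) : ℝ) = max t.1 1 * ε := by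
    push_cast
    rw [Real.coe_toNNReal _ t.2.le]
  have hle : ε ≤ max t.1.toNNReal 1 * ε := le_mul_of_one_le_left zero_le (le_max_right _ _)
  cases k
  · obtain ⟨φ, ψ, hφ, hψ, I₀, hI, hI', hd⟩ := h
    refine ⟨φ, ψ, hφ, hψ, I₀, hI, le_trans (tsub_le_tsub_left (by exact_mod_cast hle) 1) hI', ?_⟩
    intro s hs u hu
    rw [dist_scale t X (φ s) (φ u), dist_scale t Y (ψ s) (ψ u), ← mul_sub, abs_mul,
      abs_of_pos t.2, hmax]
    exact mul_le_mul (le_max_left _ _) (hd s hs u hu) (abs_nonneg _)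
      (le_trans zero_le_one (le_max_right _ _))
  · obtain ⟨φ, ψ, hφ, hψ, h1, h2⟩ := h
    have key : ∀ {A B : MMSpace} (α : Ico (0 : ℝ) 1 → A) (β : Ico (0 : ℝ) 1 → B),
        (∀ f : A → ℝ, LipschitzWith 1 f → ∃ g : B → ℝ, LipschitzWith 1 g ∧
          leb {t | (ε : ℝ) < |f (α t) - g (β t)|} ≤ ε) →
        ∀ f : Q233.SG.scale t A → ℝ, LipschitzWith 1 f →
          ∃ g : Q233.SG.scale t B → ℝ, LipschitzWith 1 g ∧
            leb {s | ((max t.1.toNNReal 1 * ε : ℝ≥0) : ℝ) < |f (α s) - g (β s)|} ≤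
              ((max t.1.toNNReal 1 * ε : ℝ≥0) : ℝ≥0∞) := by
      intro A B α β hA f hf
      have hf' := (lip_iff (X := Q233.SG.scale t A)).1 hf
      have hf1 : LipschitzWith 1 fun x : A => t.1⁻¹ * f x := by
        rw [lip_iff]
        intro a b
        have e1 := hf' a b
        rw [dist_scale t A a b] at e1
        rw [← mul_sub, abs_mul, abs_of_pos (inv_pos.2 t.2), inv_mul_le_iff₀ t.2]
        exact e1
      obtain ⟨g, hg, hfg⟩ := hA _ hf1
      refine ⟨fun y => t.1 * g y, ?_, ?_⟩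
      · rw [lip_iff (X := Q233.SG.scale t B)]
        intro a b
        rw [dist_scale t B a b, ← mul_sub, abs_mul, abs_of_pos t.2]
        exact mul_le_mul_of_nonneg_left (lip_iff.1 hg a b) t.2.le
      · refine (measure_mono ?_).trans (hfg.trans (by exact_mod_cast hle))
        intro s hs
        have hs' : ((max t.1.toNNReal 1 * ε : ℝ≥0) : ℝ) < |f (α s) - t.1 * g (β s)| := hs
        rw [hmax] at hs'
        have e1 : f (α s) - t.1 * g (β s) = t.1 * (t.1⁻¹ * f (α s) - g (β s)) := by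
          rw [mul_sub, ← mul_assoc, mul_inv_cancel₀ t.2.ne', one_mul]
        rw [e1, abs_mul, abs_of_pos t.2] at hs'
        have e2 : t.1 * ε < t.1 * |t.1⁻¹ * f (α s) - g (β s)| :=
          lt_of_le_of_lt (mul_le_mul_of_nonneg_right (le_max_left _ _) hε) hs'
        exact lt_of_mul_lt_mul_left e2 t.2.le
    refine ⟨φ, ψ, hφ, hψ, key φ ψ h1, fun g hg => ?_⟩
    obtain ⟨f, hf, h3⟩ := key ψ φ (by
      intro g' hg'
      obtain ⟨f', hf', h4⟩ := h2 g' hg'
      refine ⟨f', hf', ?_⟩
      simpa only [abs_sub_comm] using h4) g hg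
    refine ⟨f, hf, ?_⟩
    simp only [abs_sub_comm (g _)] at h3
    exact h3

theorem continuous_smul_MM (k : Kind) (t : Pos) : Continuous fun x : MM k => t • x := by
  have h1 : LipschitzWith (max t.1.toNNReal 1) fun x : MM k => t • x := by
    intro x y
    induction x using Quotient.inductionOn with | _ X => ?_
    induction y using Quotient.inductionOn with | _ Y => ?_
    have h2 := distSp_bound k (X := X) (Y := Y) (X' := scale t X) (Y' := scale t Y)
      (C := max t.1.toNNReal 1) (c := 0) fun ε hε => by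
        rw [add_zero, ← ENNReal.coe_mul]
        exact distSp_le (hε.scale t)
    rw [add_zero] at h2
    exact h2
  exact h1.continuous

instance (k : Kind) : ContinuousConstSMul Pos (MMs k) where
  continuous_const_smul t := by
    refine Continuous.subtype_mk ?_ _
    exact (continuous_smul_MM k t).comp continuous_subtype_val

/-- shrinking a space gives the point -/
theorem shrink (X : MMSpace) {η : ℝ≥0} (hη : 0 < η) : ∃ s₀ : ℝ, 0 < s₀ ∧ ∀ t : Pos, t.1 ≤ s₀ →
    BoxGood η (scale t X) pt := by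
  obtain ⟨φ, hφ, hφm⟩ := exists_param X.μ
  obtain ⟨x₀⟩ : Nonempty X := X.μ.nonempty_of_neZero
  let D : ℕ → Set X := fun n => {x | (n : ℝ) < dist x x₀}
  have hDm : ∀ n, MeasurableSet (D n) := fun n =>
    measurableSet_lt measurable_const (by
      have : SecondCountableTopology X := UniformSpace.secondCountable_of_separable _
      exact measurable_id.dist measurable_const)
  have hDa : Antitone D := by
    intro n m hnm p hp
    have h1 : (m : ℝ) < dist p x₀ := hp
    have h2 : (n : ℝ) ≤ m := by exact_mod_cast hnm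
    exact h2.trans_lt h1
  have hD0 : ⋂ n, D n = ∅ := by
    rw [eq_empty_iff_forall_notMem]
    intro p hp
    obtain ⟨n, hn⟩ := exists_nat_gt (dist p x₀)
    have h1 : (n : ℝ) < dist p x₀ := mem_iInter.1 hp n
    linarith
  have hlim := tendsto_measure_iInter_atTop (μ := X.μ)
    (fun n => (hDm n).nullMeasurableSet) hDa ⟨0, measure_ne_top _ _⟩
  rw [hD0, measure_empty] at hlim
  have hev : ∀ᶠ n in atTop, X.μ (D n) < η :=
    hlim.eventually_lt_const (by simpa using hη)
  obtain ⟨n, hn⟩ := hev.exists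
  refine ⟨η / (2 * (n + 1)), by positivity, fun t ht => ?_⟩
  refine boxGood_of leb (X := scale t X) (Y := pt) (f := φ) (g := fun _ => ()) hφ
    measurable_const hφm ?_ (S := φ ⁻¹' (D n)ᶜ) (hφ (hDm n).compl) ?_ ?_
  · rw [Measure.map_const, measure_univ, one_smul]
    rfl
  · rw [← Measure.map_apply hφ (hDm n).compl, hφm, prob_compl_eq_one_sub (hDm n)]
    exact tsub_le_tsub_left hn.le 1
  · intro s hs u hu
    have h1 : @dist pt _ () () = 0 := dist_self _
    rw [dist_scale t X (φ s) (φ u), h1, sub_zero, abs_of_nonneg (mul_nonneg t.2.le dist_nonneg)]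
    have h2 : dist (φ s) x₀ ≤ n := not_lt.1 hs
    have h3 : dist (φ u) x₀ ≤ n := not_lt.1 hu
    have h4 : dist (φ s) (φ u) ≤ 2 * (n + 1) := by
      have := dist_triangle_right (φ s) (φ u) x₀
      linarith
    calc t.1 * dist (φ s) (φ u) ≤ η / (2 * (n + 1)) * (2 * (n + 1)) :=
          mul_le_mul ht h4 dist_nonneg (by positivity)
      _ = η := by field_simp

/-! ### The maps on classes -/

/-- the product with the two-point space, on classes -/
noncomputable def prodM (k : Kind) (x : MM k) (b : ℝ) : MM k :=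
  Quotient.map (fun X => prodSp X b) (fun _ _ h => prodSp_iso h b) x

theorem prodM_cls (k : Kind) (X : MMSpace) (b : ℝ) : prodM k (cls k X) b = cls k (prodSp X b) := rfl

theorem prodM_zero (k : Kind) (x : MM k) : prodM k x 0 = x :=
  Quotient.inductionOn x fun X => Quotient.sound (prodSp_zero X)

theorem smul_prodM (k : Kind) (t : Pos) (x : MM k) (b : ℝ) :
    t • prodM k x b = prodM k (t • x) (t.1 * b) :=
  Quotient.inductionOn x fun X => Quotient.sound (prodSp_scale t X b).symm

theorem edist_prodM (k : Kind) (x y : MM k) (b c : ℝ) :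
    edist (prodM k x b) (prodM k y c) ≤ 2 * edist x y + (|b - c|).toNNReal := by
  induction x using Quotient.inductionOn with | _ X => ?_
  induction y using Quotient.inductionOn with | _ Y => ?_
  exact distSp_bound k (X := X) (Y := Y) (X' := prodSp X b) (Y' := prodSp Y c)
    (C := 2) (c := (|b - c|).toNNReal) fun ε hε => by
      have h1 := distSp_le (hε.prod b c)
      rw [ENNReal.coe_add, ENNReal.coe_mul] at h1
      exact h1

theorem continuous_prodM (k : Kind) : Continuous fun p : MM k × ℝ => prodM k p.1 p.2 := by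
  rw [continuous_iff_continuousAt]
  rintro ⟨x, b⟩
  rw [ContinuousAt, tendsto_iff_edist_tendsto_0]
  have h1 : Tendsto (fun p : MM k × ℝ => 2 * edist p.1 x + ((|p.2 - b|).toNNReal : ℝ≥0∞))
      (𝓝 (x, b)) (𝓝 0) := by
    have h2 : Tendsto (fun p : MM k × ℝ => 2 * edist p.1 x) (𝓝 (x, b)) (𝓝 (2 * 0)) := by
      apply ENNReal.Tendsto.const_mul _ (Or.inr (by norm_num))
      have h3 : Continuous fun p : MM k × ℝ => edist p.1 x := continuous_fst.edist continuous_const
      have h4 := h3.tendsto (x, b)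
      simpa using h4
    have h5 : Tendsto (fun p : MM k × ℝ => ((|p.2 - b|).toNNReal : ℝ≥0∞)) (𝓝 (x, b)) (𝓝 0) := by
      have h3 : Continuous fun p : MM k × ℝ => ((|p.2 - b|).toNNReal : ℝ≥0∞) := by fun_prop
      have h4 := h3.tendsto (x, b)
      simpa using h4
    simpa using h2.add h5
  exact tendsto_of_tendsto_of_tendsto_of_le_of_le tendsto_const_nhds h1 (fun _ => zero_le)
    (fun p => edist_prodM k p.1 x p.2 b)

/-- the functional on classes -/
noncomputable def GM (k : Kind) (x : MM k) (τ : ℝ) : ℝ :=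
  Quotient.lift (fun X => G X τ) (fun _ _ h => G_iso h τ) x

theorem GM_cls (k : Kind) (X : MMSpace) (τ : ℝ) : GM k (cls k X) τ = G X τ := rfl

theorem GM_zero (k : Kind) (x : MM k) : GM k x 0 = 0 :=
  Quotient.inductionOn x fun X => G_zero X

theorem GM_nonneg (k : Kind) (x : MM k) {τ : ℝ} (hτ : 0 ≤ τ) : 0 ≤ GM k x τ :=
  Quotient.inductionOn x fun X => G_nonneg X hτ

theorem GM_smul (k : Kind) (t : Pos) (x : MM k) {τ : ℝ} (hτ : 0 ≤ τ) :
    GM k (t • x) τ = t.1 * GM k x τ :=
  Quotient.inductionOn x fun X => G_scale t X hτ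

theorem continuous_GM (k : Kind) : Continuous fun p : MM k × ℝ≥0 => GM k p.1 p.2 := by
  rw [continuous_iff_continuousAt]
  rintro ⟨x, τ⟩
  induction x using Quotient.inductionOn with | _ X => ?_
  obtain ⟨K, hK, δ, hδ, h⟩ := G_cont X τ.2
  rw [ContinuousAt, Metric.tendsto_nhds]
  intro η hη
  let δ' : ℝ := min δ (η / (2 * K + 1) / 2)
  have hδ' : 0 < δ' := lt_min hδ (by positivity)
  have h1 : {y : MM k | edist y (cls k X) < ENNReal.ofReal δ'} ∈ 𝓝 (cls k X) :=
    Metric.eball_mem_nhds _ (by simpa using hδ')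
  have h2 : {σ : ℝ≥0 | |(σ : ℝ) - τ| < δ'} ∈ 𝓝 τ := by
    have h3 : Metric.ball τ δ' ∈ 𝓝 τ := Metric.ball_mem_nhds τ hδ'
    exact h3
  filter_upwards [prod_mem_nhds h1 h2]
  rintro ⟨y, σ⟩ ⟨hy, hσ⟩
  induction y using Quotient.inductionOn with | _ Y => ?_
  have hy' : distSp k Y X < ENNReal.ofReal δ' := hy
  obtain ⟨ε, hε, hg⟩ := distSp_lt_iff.1 hy'
  have hε' : (ε : ℝ) < δ' := by
    rw [← ENNReal.ofReal_coe_nnreal] at hε
    exact (ENNReal.ofReal_lt_ofReal_iff hδ').1 hε
  have hσ' : |(σ : ℝ) - τ| < δ' := hσ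
  have h4 := h ε Y σ σ.2 (hε'.le.trans (min_le_left _ _)) (hσ'.le.trans (min_le_left _ _))
    hg.cGood.symm
  rw [Real.dist_eq]
  have h5 : K * (|(σ : ℝ) - τ| + ε) ≤ K * (2 * δ') := by
    apply mul_le_mul_of_nonneg_left _ hK
    linarith
  have h6 : 2 * δ' ≤ η / (2 * K + 1) := by
    have := min_le_right δ (η / (2 * K + 1) / 2)
    have h7 : δ' ≤ η / (2 * K + 1) / 2 := this
    linarith
  have h8 : K * (2 * δ') ≤ K * (η / (2 * K + 1)) := mul_le_mul_of_nonneg_left h6 hK
  have h9 : K * (η / (2 * K + 1)) < η := by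
    rw [← mul_div_assoc, div_lt_iff₀ (by positivity)]
    nlinarith
  exact lt_of_le_of_lt (h4.trans (h5.trans h8)) h9

end Q233.SG
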